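import Pool.Agent.W650.FlDyck

set_option autoImplicit false

/-!
A commutative language over four letters all of whose sections are context-free and which is not
context-free.
-/

namespace Pool.Agent.W650.Fl

open Pool.Agent.Helper79.CFG Pool.Agent.Helper79.Trans

/-- The counter relation. -/
def Qc (a b : Fin 4) (w : List (Fin 4)) (s : ℤ) : Prop :=
  2 * (w.count 1 : ℤ) - w.count b - 2 * w.count a ≤ s ∧ s ≤ 2 * (w.count 1 : ℤ) - w.count b

theorem cf_Qc {a b : Fin 4} (hab : (a = 2 ∧ b = 3) ∨ (a = 3 ∧ b = 2)) :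
    Language.IsContextFree ({w | w.count b ≤ 2 * w.count 1 ∧
      2 * w.count 1 ≤ 2 * w.count a + w.count b} : Language (Fin 4)) := by
  have h := cf_counter (Qc a b) (by
    intro s
    unfold Qc
    simp only [List.count_nil]
    constructor
    · intro h; push_cast at h; omega
    · intro h; push_cast; omega) (by
    intro t v s h
    unfold Qc at *
    rcases hab with ⟨rfl, rfl⟩ | ⟨rfl, rfl⟩
    · fin_cases t
      · refine ⟨0, by norm_num, by norm_num, ?_, ?_⟩
        · simp
        · simp at h ⊢; omega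
      · refine ⟨2, by norm_num, by norm_num, ?_, ?_⟩
        · simp
        · simp at h ⊢; omega
      · simp at h
        by_cases c0 : 2 * (v.count 1 : ℤ) - v.count 3 - 2 * v.count 2 ≤ s
        · refine ⟨0, by norm_num, by norm_num, ?_, ?_⟩
          · simp
          · simp; omega
        · by_cases c1 : 2 * (v.count 1 : ℤ) - v.count 3 - 2 * v.count 2 ≤ s + 1
          · refine ⟨-1, by norm_num, by norm_num, ?_, ?_⟩
            · simp
            · simp; omega
          · refine ⟨-2, by norm_num, by norm_num, ?_, ?_⟩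
            · simp
            · simp; omega
      · refine ⟨-1, by norm_num, by norm_num, ?_, ?_⟩
        · simp
        · simp at h ⊢; omega
    · fin_cases t
      · refine ⟨0, by norm_num, by norm_num, ?_, ?_⟩
        · simp
        · simp at h ⊢; omega
      · refine ⟨2, by norm_num, by norm_num, ?_, ?_⟩
        · simp
        · simp at h ⊢; omega
      · refine ⟨-1, by norm_num, by norm_num, ?_, ?_⟩
        · simp
        · simp at h ⊢; omega
      · simp at h
        by_cases c0 : 2 * (v.count 1 : ℤ) - v.count 2 - 2 * v.count 3 ≤ s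
        · refine ⟨0, by norm_num, by norm_num, ?_, ?_⟩
          · simp
          · simp; omega
        · by_cases c1 : 2 * (v.count 1 : ℤ) - v.count 2 - 2 * v.count 3 ≤ s + 1
          · refine ⟨-1, by norm_num, by norm_num, ?_, ?_⟩
            · simp
            · simp; omega
          · refine ⟨-2, by norm_num, by norm_num, ?_, ?_⟩
            · simp
            · simp; omega) (by
    intro u v j k hu hv
    unfold Qc at *
    simp only [List.count_append]
    push_cast
    omega)
  have e : ({w | w.count b ≤ 2 * w.count 1 ∧ 2 * w.count 1 ≤ 2 * w.count a + w.count b} :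
      Language (Fin 4)) = {w | Qc a b w 0} := by
    ext w
    change (w.count b ≤ 2 * w.count 1 ∧ 2 * w.count 1 ≤ 2 * w.count a + w.count b) ↔ Qc a b w 0
    unfold Qc
    omega
  rw [e]
  exact h

/-- The counterexample: `InM` for the numbers of the four letters. -/
def L4 : Language (Fin 4) := {w | InM (w.count 0) (w.count 1) (w.count 2) (w.count 3)}

theorem mem_L4 (w : List (Fin 4)) : w ∈ L4 ↔
    InM (w.count 0) (w.count 1) (w.count 2) (w.count 3) := Iff.rfl

/-- images of the seven letters -/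
def h7 : Fin 7 → List (Fin 4) := ![[2], [1], [2], [3], [1], [3], [0]]

theorem count_h7 (v : List (Fin 7)) :
    (v.flatMap h7).count 0 = v.count 6 ∧ (v.flatMap h7).count 1 = v.count 1 + v.count 4 ∧
    (v.flatMap h7).count 2 = v.count 0 + v.count 2 ∧
    (v.flatMap h7).count 3 = v.count 3 + v.count 5 := by
  induction v with
  | nil => simp
  | cons x v ih =>
    obtain ⟨h0, h1, h2, h3⟩ := ih
    rw [List.flatMap_cons]
    simp only [List.count_append, List.count_cons, h0, h1, h2, h3]
    fin_cases x <;> simp [h7] <;> omega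

theorem L4_not_cf : ¬ L4.IsContextFree := by
  rintro ⟨g, hg⟩
  apply L7_not_cf
  have h := isContextFree_comap_inter h7 (sortD (fun x : Fin 7 => x)) g
  have e : L7 = ({w | w.flatMap h7 ∈ g.language ∧ w ∈ (sortD (fun x : Fin 7 => x)).accepts} :
      Language (Fin 7)) := by
    ext w
    change w ∈ L7 ↔ (w.flatMap h7 ∈ g.language ∧ w ∈ (sortD (fun x : Fin 7 => x)).accepts)
    rw [mem_sortD, hg, mem_L4, mem_L7]
    obtain ⟨h0, h1, h2, h3⟩ := count_h7 w
    rw [h0, h1, h2, h3]
  rw [e]
  exact h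

theorem union_id (x1 x2 x3 x4 : ℕ) : InM x1 x2 x3 x4 ↔
    (x2 ≤ x4 ∧ x4 + x3 ≤ x1 + x2) ∨ (x4 ≤ 2 * x2 ∧ 2 * x2 ≤ 2 * x3 + x4) ∨
    (x3 ≤ 2 * x2 ∧ 2 * x2 ≤ 2 * x4 + x3) := by
  unfold InM
  omega

theorem sections_cf (r : Fin 4 → Fin 4) (hr : Function.Injective r) :
    Language.IsContextFree ({w | w ∈ L4 ∧ w.Pairwise (fun x y => r x ≤ r y)} :
      Language (Fin 4)) := by
  have hdis : dis (r 0) (r 1) (r 2) (r 3) = true := by
    unfold dis
    simp [hr.eq_iff]
  have key : ∀ a b : Fin 4, ((a = 2 ∧ b = 3) ∨ (a = 3 ∧ b = 2)) →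
      Cr (r 0) (r 1) (r a) (r b) = false →
      Language.IsContextFree ({w | w ∈ L4 ∧ w.Pairwise (fun x y => r x ≤ r y)} :
      Language (Fin 4)) := by
    intro a b hab hx
    have h1 := cf_sorted r _ (cf_DD a b)
    have h2 := cf_sorted r _ (cf_Qc (a := 2) (b := 3) (Or.inl ⟨rfl, rfl⟩))
    have h3 := cf_sorted r _ (cf_Qc (a := 3) (b := 2) (Or.inr ⟨rfl, rfl⟩))
    have h := Pool.Agent.Helper336.CF.cf_union (Pool.Agent.Helper336.CF.cf_union h1 h2) h3
    have e : ({w | w ∈ L4 ∧ w.Pairwise (fun x y => r x ≤ r y)} : Set (List (Fin 4))) =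
        (({w | DD a b w ∧ w.Pairwise (fun x y => r x ≤ r y)} : Set (List (Fin 4))) ∪
        {w | (w.count 3 ≤ 2 * w.count 1 ∧ 2 * w.count 1 ≤ 2 * w.count 2 + w.count 3) ∧
          w.Pairwise (fun x y => r x ≤ r y)}) ∪
        {w | (w.count 2 ≤ 2 * w.count 1 ∧ 2 * w.count 1 ≤ 2 * w.count 3 + w.count 2) ∧
          w.Pairwise (fun x y => r x ≤ r y)} := by
      ext w
      simp only [Set.mem_union, Set.mem_setOf_eq]
      have hIn : w ∈ L4 ↔ (w.count 1 ≤ w.count a ∧ w.count a + w.count b ≤ w.count 0 + w.count 1) ∨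
          (w.count 3 ≤ 2 * w.count 1 ∧ 2 * w.count 1 ≤ 2 * w.count 2 + w.count 3) ∨
          (w.count 2 ≤ 2 * w.count 1 ∧ 2 * w.count 1 ≤ 2 * w.count 3 + w.count 2) := by
        rcases hab with ⟨rfl, rfl⟩ | ⟨rfl, rfl⟩
        · exact Iff.rfl
        · rw [mem_L4, union_id]
      have hDD : w.Pairwise (fun x y => r x ≤ r y) → (DD a b w ↔
          (w.count 1 ≤ w.count a ∧ w.count a + w.count b ≤ w.count 0 + w.count 1)) := by
        intro hs
        constructor
        · exact fun h => h.counts hab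
        · exact fun h => dd_of_sorted hab hr hx w.length w le_rfl hs h.1 h.2
      rw [hIn]
      constructor
      · rintro ⟨h4, hs⟩
        rcases h4 with h4 | h4 | h4
        · exact Or.inl (Or.inl ⟨(hDD hs).2 h4, hs⟩)
        · exact Or.inl (Or.inr ⟨h4, hs⟩)
        · exact Or.inr ⟨h4, hs⟩
      · rintro ((⟨h4, hs⟩ | ⟨h4, hs⟩) | ⟨h4, hs⟩)
        · exact ⟨Or.inl ((hDD hs).1 h4), hs⟩
        · exact ⟨Or.inr (Or.inl h4), hs⟩
        · exact ⟨Or.inr (Or.inr h4), hs⟩
    have h' : Pool.Agent.Helper336.CF.IsCF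
        ({w | w ∈ L4 ∧ w.Pairwise (fun x y => r x ≤ r y)} : Set (List (Fin 4))) := by
      rw [e]
      exact h
    exact h'
  rcases nocr0 _ _ _ _ hdis with hx | hx
  · exact key 2 3 (Or.inl ⟨rfl, rfl⟩) hx
  · exact key 3 2 (Or.inr ⟨rfl, rfl⟩) hx

end Pool.Agent.W650.Fl
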