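import Pool.Agent.W650.FlMain

set_option autoImplicit false

/-!
The counterexample over every alphabet with at least four letters.
-/

namespace Pool.Agent.W650.Fl

open Pool.Agent.Helper79.CFG Pool.Agent.Helper79.Trans

variable {k : ℕ}

/-- the embedding of the four letters -/
def em (hk : 4 ≤ k) (x : Fin 4) : Fin k := Fin.castLE hk x

/-- the projection to the four letters -/
def pr (x : Fin k) : List (Fin 4) := if h : x.val < 4 then [⟨x.val, h⟩] else []

/-- the automaton which accepts the words over the first four letters -/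
def lowD (k : ℕ) : DFA (Fin k) Bool where
  step s a := s && decide (a.val < 4)
  start := true
  accept := {true}

theorem lowD_eval (w : List (Fin k)) (s : Bool) :
    (lowD k).evalFrom s w = true ↔ s = true ∧ ∀ x ∈ w, x.val < 4 := by
  induction w generalizing s with
  | nil => simp
  | cons a w ih =>
    rw [DFA.evalFrom_cons, ih]
    simp [lowD, and_assoc]

theorem mem_lowD (w : List (Fin k)) : w ∈ (lowD k).accepts ↔ ∀ x ∈ w, x.val < 4 := by
  change (lowD k).evalFrom true w = true ↔ _
  rw [lowD_eval]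
  simp

theorem pr_em (hk : 4 ≤ k) (x : Fin 4) : pr (em hk x) = [x] := by
  unfold pr em
  rw [dif_pos (by simp)]
  simp

theorem flat_map (hk : 4 ≤ k) (v : List (Fin 4)) : (v.map (em hk)).flatMap pr = v := by
  induction v with
  | nil => rfl
  | cons x v ih => rw [List.map_cons, List.flatMap_cons, pr_em, ih]; rfl

theorem map_flat (hk : 4 ≤ k) (w : List (Fin k)) (h : ∀ x ∈ w, x.val < 4) :
    (w.flatMap pr).map (em hk) = w := by
  induction w with
  | nil => rfl
  | cons x w ih =>
    rw [List.flatMap_cons, List.map_append, ih (fun y hy => h y (List.mem_cons_of_mem _ hy))]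
    unfold pr
    rw [dif_pos (h x List.mem_cons_self)]
    simp [em]

theorem em_inj (hk : 4 ≤ k) : Function.Injective (em hk) := Fin.castLE_injective hk

/-- The language over `k` letters. -/
def LK (hk : 4 ≤ k) : Language (Fin k) :=
  {w | (∀ x ∈ w, x.val < 4) ∧ InM (w.count (em hk 0)) (w.count (em hk 1)) (w.count (em hk 2))
    (w.count (em hk 3))}

theorem mem_LK (hk : 4 ≤ k) (w : List (Fin k)) : w ∈ LK hk ↔ (∀ x ∈ w, x.val < 4) ∧
    InM (w.count (em hk 0)) (w.count (em hk 1)) (w.count (em hk 2)) (w.count (em hk 3)) := Iff.rfl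

theorem mem_LK_iff (hk : 4 ≤ k) (w : List (Fin k)) : w ∈ LK hk ↔
    (∀ x ∈ w, x.val < 4) ∧ w.flatMap pr ∈ L4 := by
  rw [mem_LK]
  refine and_congr_right fun h => ?_
  rw [mem_L4]
  have e := map_flat hk w h
  have c : ∀ x : Fin 4, w.count (em hk x) = (w.flatMap pr).count x := by
    intro x
    conv_lhs => rw [← e]
    exact List.count_map_of_injective _ _ (em_inj hk) _
  rw [c, c, c, c]

theorem LK_perm (hk : 4 ≤ k) (w v : List (Fin k)) (hp : w.Perm v) (hw : w ∈ LK hk) :
    v ∈ LK hk := by
  rw [mem_LK] at hw ⊢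
  refine ⟨fun x hx => hw.1 x (hp.mem_iff.2 hx), ?_⟩
  rw [← hp.count_eq, ← hp.count_eq, ← hp.count_eq, ← hp.count_eq]
  exact hw.2

theorem LK_not_cf (hk : 4 ≤ k) : ¬ (LK hk).IsContextFree := by
  rintro ⟨g, hg⟩
  apply L4_not_cf
  have h := isContextFree_comap_inter (fun x : Fin 4 => [em hk x])
    (sortD (n := 3) (fun _ => 0)) g
  have e : L4 = ({w | w.flatMap (fun x : Fin 4 => [em hk x]) ∈ g.language ∧
      w ∈ (sortD (n := 3) (fun _ => 0)).accepts} : Language (Fin 4)) := by
    ext w
    change w ∈ L4 ↔ (w.flatMap (fun x : Fin 4 => [em hk x]) ∈ g.language ∧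
      w ∈ (sortD (n := 3) (fun _ => 0)).accepts)
    rw [mem_sortD, hg, mem_LK_iff]
    have e1 : w.flatMap (fun x : Fin 4 => [em hk x]) = w.map (em hk) := by
      rw [List.map_eq_flatMap]
    rw [e1, flat_map]
    constructor
    · intro h
      refine ⟨⟨?_, h⟩, ?_⟩
      · intro x hx
        obtain ⟨y, -, rfl⟩ := List.mem_map.1 hx
        exact y.isLt
      · exact List.pairwise_of_forall (fun _ _ => le_refl _)
    · intro h
      exact h.1.2
  rw [e]
  exact h

theorem sections_LK (hk : 4 ≤ k) (r : Fin k → Fin k) (hr : Function.Injective r) :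
    Language.IsContextFree ({w | w ∈ LK hk ∧ w.Pairwise (fun x y => r x ≤ r y)} :
      Language (Fin k)) := by
  classical
  have hinj : Function.Injective (fun x : Fin 4 => r (em hk x)) := hr.comp (em_inj hk)
  let S : Finset (Fin k) := Finset.univ.image (fun x : Fin 4 => r (em hk x))
  have hS : S.card = 4 := by
    rw [Finset.card_image_of_injective _ hinj]
    rfl
  let o := S.orderIsoOfFin hS
  have hmem : ∀ x : Fin 4, r (em hk x) ∈ S := fun x => Finset.mem_image_of_mem _ (Finset.mem_univ x)
  let r' : Fin 4 → Fin 4 := fun x => o.symm ⟨r (em hk x), hmem x⟩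
  have hle : ∀ x y : Fin 4, r' x ≤ r' y ↔ r (em hk x) ≤ r (em hk y) := by
    intro x y
    change o.symm _ ≤ o.symm _ ↔ _
    rw [o.symm.le_iff_le]
    exact Iff.rfl
  have hr' : Function.Injective r' := by
    intro x y hxy
    have h1 := (hle x y).1 (le_of_eq hxy)
    have h2 := (hle y x).1 (le_of_eq hxy.symm)
    exact hinj (le_antisymm h1 h2)
  obtain ⟨g, hg⟩ := sections_cf r' hr'
  have h := isContextFree_comap_inter (pr (k := k)) (lowD k) g
  have e : ({w | w ∈ LK hk ∧ w.Pairwise (fun x y => r x ≤ r y)} : Language (Fin k)) =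
      ({w | w.flatMap pr ∈ g.language ∧ w ∈ (lowD k).accepts} : Language (Fin k)) := by
    ext w
    change (w ∈ LK hk ∧ w.Pairwise (fun x y => r x ≤ r y)) ↔
      (w.flatMap pr ∈ g.language ∧ w ∈ (lowD k).accepts)
    rw [mem_lowD, hg]
    change _ ↔ (w.flatMap pr ∈ L4 ∧ (w.flatMap pr).Pairwise (fun x y => r' x ≤ r' y)) ∧ _
    rw [mem_LK_iff]
    have key : (∀ x ∈ w, x.val < 4) → (w.Pairwise (fun x y => r x ≤ r y) ↔
        (w.flatMap pr).Pairwise (fun x y => r' x ≤ r' y)) := by
      intro h
      conv_lhs => rw [← map_flat hk w h]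
      rw [List.pairwise_map]
      simp only [hle]
    constructor
    · rintro ⟨⟨h1, h2⟩, h3⟩
      exact ⟨⟨h2, (key h1).1 h3⟩, h1⟩
    · rintro ⟨⟨h2, h3⟩, h1⟩
      exact ⟨⟨h1, h2⟩, (key h1).2 h3⟩
  rw [e]
  exact h

theorem blocks_sorted (M : Equiv.Perm (Fin k)) (e : Fin k → ℕ) :
    ((List.finRange k).flatMap (fun i => List.replicate (e i) (M i))).Pairwise
      (fun x y => M.symm x ≤ M.symm y) := by
  rw [List.pairwise_flatMap]
  refine ⟨?_, ?_⟩
  · intro i _
    rw [List.pairwise_replicate]
    exact Or.inr le_rfl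
  · refine (List.pairwise_lt_finRange k).imp ?_
    intro a b hab x hx y hy
    rw [List.mem_replicate] at hx hy
    rw [hx.2, hy.2]
    simp only [Equiv.symm_apply_apply]
    exact hab.le

theorem blocks_count (M : Equiv.Perm (Fin k)) (e : Fin k → ℕ) (j : Fin k) :
    ((List.finRange k).flatMap (fun i => List.replicate (e i) (M i))).count j = e (M.symm j) := by
  rw [List.count_flatMap]
  have h1 : (List.map (List.count j ∘ fun i => List.replicate (e i) (M i)) (List.finRange k)) =
      (List.finRange k).map (fun i => if M.symm j = i then e i else 0) := by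
    apply List.map_congr_left
    intro i _
    simp only [Function.comp, List.count_replicate]
    by_cases h : M.symm j = i
    · subst h
      simp
    · rw [if_neg h, if_neg]
      intro h'
      apply h
      rw [beq_iff_eq] at h'
      rw [← h', Equiv.symm_apply_apply]
  rw [h1, ← List.ofFn_eq_map, List.sum_ofFn]
  simp

theorem sorted_iff (M : Equiv.Perm (Fin k)) (w : List (Fin k)) :
    (∃ e : Fin k → ℕ, w = (List.finRange k).flatMap (fun i => List.replicate (e i) (M i))) ↔
      w.Pairwise (fun x y => M.symm x ≤ M.symm y) := by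
  constructor
  · rintro ⟨e, rfl⟩
    exact blocks_sorted M e
  · intro h
    refine ⟨fun i => w.count (M i), ?_⟩
    refine List.Perm.eq_of_pairwise ?_ h (blocks_sorted M _) ?_
    · intro a b _ _ h1 h2
      exact M.symm.injective (le_antisymm h1 h2)
    · rw [List.perm_iff_count]
      intro j
      rw [blocks_count, Equiv.apply_symm_apply]

end Pool.Agent.W650.Fl
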