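import Pool.Agent.W650.FlPack

set_option autoImplicit false

/-!
A bounded language over seven letters which is not context-free.
-/

namespace Pool.Agent.W650.Fl

/-- The set of Parikh vectors of the counterexample. -/
def InM (x1 x2 x3 x4 : ℕ) : Prop :=
  (x2 ≤ x3 ∧ x3 + x4 ≤ x1 + x2) ∨ (x4 ≤ 2 * x2 ∧ 2 * x2 ≤ 2 * x3 + x4) ∨
    (x3 ≤ 2 * x2 ∧ 2 * x2 ≤ 2 * x4 + x3)

/-- The language over seven letters. -/
def L7 : Language (Fin 7) :=
  {v | InM (v.count 6) (v.count 1 + v.count 4) (v.count 0 + v.count 2) (v.count 3 + v.count 5) ∧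
    v.Pairwise (· ≤ ·)}

theorem mem_L7 (v : List (Fin 7)) : v ∈ L7 ↔
    InM (v.count 6) (v.count 1 + v.count 4) (v.count 0 + v.count 2) (v.count 3 + v.count 5) ∧
    v.Pairwise (· ≤ ·) := Iff.rfl

/-- letters of a loop -/
def cn (a : Fin 7) (p : List (Fin 7) × List (Fin 7)) : ℤ := (p.1.count a : ℤ) + p.2.count a

/-- the weight of a loop -/
def el (p : List (Fin 7) × List (Fin 7)) : ℤ :=
  cn 6 p + cn 1 p + cn 4 p - cn 0 p - cn 2 p - cn 3 p - cn 5 p

theorem cn_nonneg (a : Fin 7) (p : List (Fin 7) × List (Fin 7)) : 0 ≤ cn a p := by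
  unfold cn; positivity

theorem cn_le (a : Fin 7) (p : List (Fin 7) × List (Fin 7)) :
    cn a p ≤ p.1.length + p.2.length := by
  unfold cn
  have h1 : p.1.count a ≤ p.1.length := List.count_le_length
  have h2 : p.2.count a ≤ p.2.length := List.count_le_length
  omega

theorem sum_le {β : Type} (f g h : β → ℤ) (K : ℤ) (ps : List β)
    (hp : ∀ p ∈ ps, f p ≤ g p + K * h p) :
    (ps.map f).sum ≤ (ps.map g).sum + K * (ps.map h).sum := by
  induction ps with
  | nil => simp
  | cons p ps ih =>
    have h1 := ih (fun q hq => hp q (List.mem_cons_of_mem _ hq))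
    have h2 := hp p List.mem_cons_self
    simp only [List.map_cons, List.sum_cons]
    linarith

theorem sum_el (ps : List (List (Fin 7) × List (Fin 7))) :
    (ps.map el).sum = (ps.map (cn 6)).sum + (ps.map (cn 1)).sum + (ps.map (cn 4)).sum -
      (ps.map (cn 0)).sum - (ps.map (cn 2)).sum - (ps.map (cn 3)).sum - (ps.map (cn 5)).sum := by
  induction ps with
  | nil => simp
  | cons p ps ih =>
    simp only [List.map_cons, List.sum_cons, ih]
    unfold el
    ring

/-- The word with many letters. -/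
def wd (k j : ℕ) : List (Fin 7) :=
  List.replicate k 0 ++ (List.replicate j 1 ++ (List.replicate k 2 ++ (List.replicate k 3 ++
    (List.replicate j 4 ++ (List.replicate k 5 ++ List.replicate (4 * k - 2 * j) 6)))))

theorem wd_sorted (k j : ℕ) : (wd k j).Pairwise (· ≤ ·) := by
  unfold wd
  simp only [List.pairwise_append, List.pairwise_replicate, List.mem_replicate, List.mem_append]
  refine ⟨by simp, ⟨by simp, ⟨by simp, ⟨by simp, ⟨by simp, ⟨by simp, by simp, ?_⟩, ?_⟩, ?_⟩, ?_⟩,
    ?_⟩, ?_⟩
  all_goals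
    rintro a ⟨-, rfl⟩ b hb
    try rcases hb with ⟨-, rfl⟩ | hb
    all_goals try decide
    try rcases hb with ⟨-, rfl⟩ | hb
    all_goals try decide
    try rcases hb with ⟨-, rfl⟩ | hb
    all_goals try decide
    try rcases hb with ⟨-, rfl⟩ | hb
    all_goals try decide
    try rcases hb with ⟨-, rfl⟩ | hb
    all_goals try decide
    try (obtain ⟨-, rfl⟩ := hb; decide)

theorem wd_count (k j : ℕ) (a : Fin 7) : (wd k j).count a =
    ![k, j, k, k, j, k, 4 * k - 2 * j] a := by
  unfold wd
  fin_cases a <;> simp [List.count_replicate]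

/-- weight of a word -/
def e1 (u : List (Fin 7)) : ℤ :=
  (u.count 6 : ℤ) + u.count 1 + u.count 4 - u.count 0 - u.count 2 - u.count 3 - u.count 5

/-- weights of letters -/
def sg : Fin 7 → ℤ := ![-1, 1, -1, -1, 1, -1, 1]

theorem e1_rep (s : ℕ) (X : Fin 7) : e1 (List.replicate s X) = sg X * s := by
  unfold e1 sg
  fin_cases X <;> simp [List.count_replicate]

theorem el_eq (p : List (Fin 7) × List (Fin 7)) : el p = e1 p.1 + e1 p.2 := by
  unfold el e1 cn
  ring

theorem sg_or (X : Fin 7) : sg X = 1 ∨ sg X = -1 := by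
  fin_cases X <;> simp [sg]

theorem rep_of (u : List (Fin 7)) (h : (u ++ u).Pairwise (· ≤ ·)) :
    ∃ X, u = List.replicate u.length X := by
  rw [List.pairwise_append] at h
  obtain ⟨-, -, h⟩ := h
  cases u with
  | nil => exact ⟨0, rfl⟩
  | cons X u =>
    refine ⟨X, List.eq_replicate_iff.2 ⟨rfl, fun y hy => ?_⟩⟩
    exact le_antisymm (h y hy X List.mem_cons_self) (h X List.mem_cons_self y hy)

section Loops

variable {w : List (Fin 7)} {P : Set (List (Fin 7) × List (Fin 7))}
  (hins : ∀ p ∈ P, ∀ q ∈ P, ∀ N M, ∃ w' ∈ L7, (∀ a, w'.count a = w.count a +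
    N * (p.1.count a + p.2.count a) + M * (q.1.count a + q.2.count a)) ∧
    Pat p.1 p.2 q.1 q.2 N M w')

include hins

theorem dbl {p : List (Fin 7) × List (Fin 7)} (hp : p ∈ P) :
    (p.1 ++ p.1 ++ (p.2 ++ p.2)).Pairwise (· ≤ ·) := by
  obtain ⟨w', hw', -, h⟩ := hins p hp p hp 2 0
  have hs := ((mem_L7 w').1 hw').2
  have h2 : ∀ u : List (Fin 7), rp 2 u = u ++ u := by intro u; simp [rp, List.replicate_succ]
  have h0 : ∀ u : List (Fin 7), rp 0 u = [] := by intro u; simp [rp]
  unfold Pat at h
  simp only [h2, h0, List.append_nil, List.nil_append] at h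
  rcases h with h | h | h | h
  all_goals exact hs.sublist h

theorem ty {p : List (Fin 7) × List (Fin 7)} (hp : p ∈ P) (h0 : el p = 0)
    (hl : 0 < p.1.length + p.2.length) :
    ∃ X Y s, 1 ≤ s ∧ p = (List.replicate s X, List.replicate s Y) ∧ X < Y ∧
      sg X + sg Y = 0 := by
  obtain ⟨u, v⟩ := p
  have h := dbl hins hp
  rw [List.pairwise_append] at h
  obtain ⟨h1, h2, h3⟩ := h
  simp only at h1 h2 h3 hl
  obtain ⟨X, hX⟩ := rep_of u h1
  obtain ⟨Y, hY⟩ := rep_of v h2
  generalize hs : u.length = s at hX hl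
  generalize ht : v.length = t at hY hl
  subst hX hY
  rw [el_eq] at h0
  simp only [e1_rep] at h0
  have key : s = t ∧ sg X + sg Y = 0 := by
    rcases sg_or X with hX | hX <;> rcases sg_or Y with hY | hY
    all_goals rw [hX, hY] at h0 ⊢
    all_goals refine ⟨by omega, by omega⟩
  obtain ⟨rfl, hk⟩ := key
  have hs1 : 1 ≤ s := by omega
  refine ⟨X, Y, s, hs1, rfl, ?_, hk⟩
  have hle : X ≤ Y := h3 X (by simp; omega) Y (by simp; omega)
  refine lt_of_le_of_ne hle ?_
  rintro rfl
  rcases sg_or X with hX | hX <;> omega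

theorem cross {s t : ℕ} (hs : 1 ≤ s) (ht : 1 ≤ t) {X Y X' Y' : Fin 7}
    (hp : (List.replicate s X, List.replicate s Y) ∈ P)
    (hq : (List.replicate t X', List.replicate t Y') ∈ P) (h1 : X < X') (h2 : X' < Y)
    (h3 : Y < Y') : False := by
  obtain ⟨w', hw', -, h⟩ := hins _ hp _ hq 1 1
  have hso := ((mem_L7 w').1 hw').2
  have hr : ∀ u : List (Fin 7), rp 1 u = u := by intro u; simp [rp]
  unfold Pat at h
  simp only [hr] at h
  have hs0 : s ≠ 0 := by omega
  have ht0 : t ≠ 0 := by omega
  rcases h with h | h | h | h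
  · have := hso.sublist h
    rw [List.pairwise_append] at this
    have g := this.2.2 Y (by simp [hs0]) X' (by simp [ht0])
    exact absurd g (not_le.2 h2)
  · have := hso.sublist h
    rw [List.pairwise_append] at this
    have g := this.2.2 Y' (by simp [ht0]) X (by simp [hs0])
    exact absurd g (not_le.2 (h1.trans (h2.trans h3)))
  · have := hso.sublist h
    rw [List.pairwise_append] at this
    have g := this.2.2 Y' (by simp [ht0]) Y (by simp [hs0])
    exact absurd g (not_le.2 h3)
  · have := hso.sublist h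
    rw [List.append_assoc, List.pairwise_append] at this
    have g := this.2.2 X' (by simp [ht0]) X (by simp [hs0])
    exact absurd g (not_le.2 h1)

end Loops

/-- The language `L7` is not context-free. -/
theorem L7_not_cf : ¬ L7.IsContextFree := by
  intro hL
  obtain ⟨K, hK⟩ := pump_pack L7 hL
  obtain ⟨j, hj⟩ : ∃ j, j = K * K + K + 1 := ⟨_, rfl⟩
  obtain ⟨k, hk⟩ : ∃ k, k = 3 * j + 2 * K := ⟨_, rfl⟩
  have hw : wd k j ∈ L7 := by
    rw [mem_L7]
    refine ⟨?_, wd_sorted k j⟩
    simp only [wd_count]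
    simp [InM]
    left
    omega
  obtain ⟨P, w0, ps, hw0, hps, hcnt, hins⟩ := hK _ hw
  have hc : ∀ a : Fin 7, ((![k, j, k, k, j, k, 4 * k - 2 * j] a : ℕ) : ℤ) =
      w0.count a + (ps.map (cn a)).sum := by
    intro a
    rw [← wd_count, hcnt a]
    push_cast
    rw [List.map_map]
    rfl
  have hlen : ∀ p ∈ ps, ∀ a, cn a p ≤ K := by
    intro p hp a
    have h1 := cn_le a p
    have h2 := (hps p hp).2
    omega
  have hins' : ∀ p ∈ P, ∀ q ∈ P, ∀ N M : ℕ, ∃ w' ∈ L7, (∀ a, (w'.count a : ℤ) =
      ((![k, j, k, k, j, k, 4 * k - 2 * j] a : ℕ) : ℤ) + N * cn a p + M * cn a q) := by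
    intro p hp q hq N M
    obtain ⟨w', h1, h2, -⟩ := hins p hp q hq N M
    refine ⟨w', h1, fun a => ?_⟩
    rw [h2 a, wd_count]
    unfold cn
    push_cast
    ring
  have hel : ∀ p ∈ ps, 0 ≤ el p := by
    intro p hp
    obtain ⟨w', h1, h2⟩ := hins' p (hps p hp).1 p (hps p hp).1 1 0
    have c0 := h2 0
    have c1 := h2 1
    have c2 := h2 2
    have c3 := h2 3
    have c4 := h2 4
    have c5 := h2 5
    have c6 := h2 6
    simp at c0 c1 c2 c3 c4 c5 c6
    have b1 := hlen p hp 1
    have b4 := hlen p hp 4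
    have n0 := cn_nonneg 0 p
    have n2 := cn_nonneg 2 p
    have n3 := cn_nonneg 3 p
    have n5 := cn_nonneg 5 p
    unfold el
    rcases ((mem_L7 w').1 h1).1 with h | h | h
    · omega
    · omega
    · omega
  -- the sum of the weights is small
  have hsum : (ps.map el).sum ≤ K := by
    rw [sum_el]
    have c0 := hc 0
    have c1 := hc 1
    have c2 := hc 2
    have c3 := hc 3
    have c4 := hc 4
    have c5 := hc 5
    have c6 := hc 6
    simp at c0 c1 c2 c3 c4 c5 c6
    have hk2 : 2 * j ≤ 4 * k := by omega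
    have d : w0.count 0 + w0.count 2 + w0.count 3 + w0.count 5 ≤ w0.length := by
      clear hc hcnt hw0 c0 c1 c2 c3 c4 c5 c6
      induction w0 with
      | nil => simp
      | cons x w0 ih =>
        simp only [List.count_cons, List.length_cons]
        fin_cases x <;> simp <;> omega
    omega
  have hsum0 : ∀ f g : List (Fin 7) × List (Fin 7) → ℤ, (∀ p ∈ ps, f p ≤ g p + K * el p) →
      (ps.map f).sum ≤ (ps.map g).sum + K * K := by
    intro f g h
    have h1 := sum_le f g el K ps h
    have h2 : (K : ℤ) * (ps.map el).sum ≤ K * K :=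
      mul_le_mul_of_nonneg_left hsum (by positivity)
    linarith
  have hone : ∀ p ∈ ps, el p ≠ 0 → ∀ a, cn a p ≤ K * el p := by
    intro p hp h a
    have h1 : 1 ≤ el p := by
      have := hel p hp
      omega
    have h2 := hlen p hp a
    have h3 : (K : ℤ) * 1 ≤ K * el p := mul_le_mul_of_nonneg_left h1 (by positivity)
    linarith
  have hcnt_le : ∀ a, (w0.count a : ℤ) ≤ K := by
    intro a
    have : w0.count a ≤ w0.length := List.count_le_length
    omega
  -- types of loops of weight zero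
  have hty : ∀ p ∈ ps, el p = 0 → ∀ a, 0 < cn a p → ∃ X Y s, 1 ≤ s ∧
      p = (List.replicate s X, List.replicate s Y) ∧ X < Y ∧ sg X + sg Y = 0 ∧
      (X = a ∨ Y = a) := by
    intro p hp h0 a ha
    obtain ⟨X, Y, s, h1, h2, h3, h4⟩ := ty hins (hps p hp).1 h0 (by
      have := cn_le a p
      omega)
    refine ⟨X, Y, s, h1, h2, h3, h4, ?_⟩
    by_contra hne
    push Not at hne
    subst h2
    unfold cn at ha
    simp [List.count_replicate, hne.1, hne.2] at ha
  have cnr : ∀ (a X Y : Fin 7) (s : ℕ), cn a (List.replicate s X, List.replicate s Y) =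
      (if X = a then (s : ℤ) else 0) + (if Y = a then (s : ℤ) else 0) := by
    intro a X Y s
    unfold cn
    simp only [List.count_replicate, beq_iff_eq]
    push_cast
    rfl
  have c1 := hc 1
  have c2 := hc 2
  have c3 := hc 3
  have c4 := hc 4
  simp at c1 c2 c3 c4
  -- the letters `1` are linked with the letters `0` or `2`
  have cl1 : ∃ p ∈ ps, ∃ s, 1 ≤ s ∧ (p = (List.replicate s 0, List.replicate s 1) ∨
      p = (List.replicate s 1, List.replicate s 2)) := by
    by_contra hno
    have hA : ∃ p ∈ ps, el p = 0 ∧ 0 < cn 1 p := by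
      by_contra hA
      push Not at hA
      have h1 := hsum0 (cn 1) (fun _ => 0) (by
        intro p hp
        by_cases h0 : el p = 0
        · have := hA p hp h0
          rw [h0]; linarith
        · have := hone p hp h0 1
          linarith)
      have h2 := hcnt_le 1
      simp only [List.map_const', List.sum_replicate, smul_zero, zero_add] at h1
      have h3 : (j : ℤ) = K * K + K + 1 := by rw [hj]; push_cast; ring
      linarith
    obtain ⟨pb, hpb, hb0, hb1⟩ := hA
    obtain ⟨Xb, Yb, sb, hsb, rfl, hlt, hsg, hor⟩ := hty pb hpb hb0 1 hb1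
    have hYb : Xb = 1 ∧ 2 < Yb ∧ Yb < 6 := by
      rcases hor with rfl | rfl
      · refine ⟨rfl, ?_⟩
        have hne : Yb ≠ 2 := by
          rintro rfl
          exact hno ⟨_, hpb, sb, hsb, Or.inr rfl⟩
        revert hlt hsg hne
        clear * -
        revert Yb
        unfold sg
        decide
      · exfalso
        have hX : Xb = 0 := by
          revert hlt
          clear * -
          revert Xb
          decide
        subst hX
        exact hno ⟨_, hpb, sb, hsb, Or.inl rfl⟩
    obtain ⟨rfl, hY2, hY6⟩ := hYb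
    have hB := hsum0 (cn 2) (cn 4) (by
      intro p hp
      by_cases h0 : el p = 0
      · rw [h0]
        by_cases hz : 0 < cn 2 p
        · obtain ⟨X, Y, s, hs, rfl, hlt', hsg', hor'⟩ := hty p hp h0 2 hz
          have hXY : (X = 1 ∧ Y = 2) ∨ (X = 2 ∧ Y = 4) ∨ (X = 2 ∧ Y = 6) := by
            revert hlt' hsg' hor'
            clear * -
            revert X Y
            unfold sg
            decide
          rcases hXY with ⟨rfl, rfl⟩ | ⟨rfl, rfl⟩ | ⟨rfl, rfl⟩
          · exact absurd ⟨_, hp, s, hs, Or.inr rfl⟩ hno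
          · rw [cnr, cnr]
            simp
          · exact absurd (cross hins hsb hs (hps _ hpb).1 (hps _ hp).1 (by decide) hY2 hY6) id
        · have := cn_nonneg 4 p
          linarith
      · have := hone p hp h0 2
        have := cn_nonneg 4 p
        linarith)
    have h2 := hcnt_le 2
    have h3 : (j : ℤ) = K * K + K + 1 := by rw [hj]; push_cast; ring
    have h4 : (k : ℤ) = 3 * j + 2 * K := by rw [hk]; push_cast; ring
    have h5 : (0 : ℤ) ≤ w0.count 4 := by positivity
    have h6 : (0 : ℤ) ≤ K := by positivity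
    nlinarith
  -- the letters `4` are linked with the letters `3` or `5`
  have cl2 : ∃ p ∈ ps, ∃ s, 1 ≤ s ∧ (p = (List.replicate s 3, List.replicate s 4) ∨
      p = (List.replicate s 4, List.replicate s 5)) := by
    by_contra hno
    have hA : ∃ p ∈ ps, el p = 0 ∧ 0 < cn 4 p := by
      by_contra hA
      push Not at hA
      have h1 := hsum0 (cn 4) (fun _ => 0) (by
        intro p hp
        by_cases h0 : el p = 0
        · have := hA p hp h0
          rw [h0]; linarith
        · have := hone p hp h0 4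
          linarith)
      have h2 := hcnt_le 4
      simp only [List.map_const', List.sum_replicate, smul_zero, zero_add] at h1
      have h3 : (j : ℤ) = K * K + K + 1 := by rw [hj]; push_cast; ring
      linarith
    obtain ⟨pb, hpb, hb0, hb1⟩ := hA
    obtain ⟨Xb, Yb, sb, hsb, rfl, hlt, hsg, hor⟩ := hty pb hpb hb0 4 hb1
    have hYb : Yb = 4 ∧ Xb < 3 := by
      rcases hor with rfl | rfl
      · exfalso
        have hX : Yb = 5 := by
          revert hlt hsg
          clear * -
          revert Yb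
          unfold sg
          decide
        subst hX
        exact hno ⟨_, hpb, sb, hsb, Or.inr rfl⟩
      · refine ⟨rfl, ?_⟩
        have hne : Xb ≠ 3 := by
          rintro rfl
          exact hno ⟨_, hpb, sb, hsb, Or.inl rfl⟩
        revert hlt hsg hne
        clear * -
        revert Xb
        unfold sg
        decide
    obtain ⟨rfl, hX3⟩ := hYb
    have hB := hsum0 (cn 3) (cn 1) (by
      intro p hp
      by_cases h0 : el p = 0
      · rw [h0]
        by_cases hz : 0 < cn 3 p
        · obtain ⟨X, Y, s, hs, rfl, hlt', hsg', hor'⟩ := hty p hp h0 3 hz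
          have hXY : (X = 1 ∧ Y = 3) ∨ (X = 3 ∧ Y = 4) ∨ (X = 3 ∧ Y = 6) := by
            revert hlt' hsg' hor'
            clear * -
            revert X Y
            unfold sg
            decide
          rcases hXY with ⟨rfl, rfl⟩ | ⟨rfl, rfl⟩ | ⟨rfl, rfl⟩
          · rw [cnr, cnr]
            simp
          · exact absurd ⟨_, hp, s, hs, Or.inl rfl⟩ hno
          · exact absurd (cross hins hsb hs (hps _ hpb).1 (hps _ hp).1 hX3 (by decide)
              (by decide)) id
        · have := cn_nonneg 1 p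
          linarith
      · have := hone p hp h0 3
        have := cn_nonneg 1 p
        linarith)
    have h2 := hcnt_le 3
    have h3 : (j : ℤ) = K * K + K + 1 := by rw [hj]; push_cast; ring
    have h4 : (k : ℤ) = 3 * j + 2 * K := by rw [hk]; push_cast; ring
    have h5 : (0 : ℤ) ≤ w0.count 1 := by positivity
    have h6 : (0 : ℤ) ≤ K := by positivity
    nlinarith
  obtain ⟨p, hp, s, hs, hps1⟩ := cl1
  obtain ⟨q, hq, t, ht, hqt⟩ := cl2
  obtain ⟨w', hw', hcw⟩ := hins' p (hps p hp).1 q (hps q hq).1 ((6 * k + 1) * t) ((6 * k + 1) * s)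
  have hcn_p : cn 1 p = s ∧ cn 4 p = 0 ∧ cn 0 p + cn 2 p = s ∧ cn 3 p + cn 5 p = 0 ∧
      cn 6 p = 0 := by
    rcases hps1 with rfl | rfl <;> simp [cnr]
  have hcn_q : cn 1 q = 0 ∧ cn 4 q = t ∧ cn 0 q + cn 2 q = 0 ∧ cn 3 q + cn 5 q = t ∧
      cn 6 q = 0 := by
    rcases hqt with rfl | rfl <;> simp [cnr]
  obtain ⟨p1, p4, p02, p35, p6⟩ := hcn_p
  obtain ⟨q1, q4, q02, q35, q6⟩ := hcn_q
  have d0 := hcw 0
  have d1 := hcw 1
  have d2 := hcw 2
  have d3 := hcw 3
  have d4 := hcw 4
  have d5 := hcw 5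
  have d6 := hcw 6
  simp at d0 d1 d2 d3 d4 d5 d6
  obtain ⟨R, hR⟩ : ∃ R : ℕ, R = (6 * k + 1) * t * s := ⟨_, rfl⟩
  have hRk : 6 * k + 1 ≤ R := by
    rw [hR]
    calc 6 * k + 1 = (6 * k + 1) * 1 * 1 := by ring
      _ ≤ (6 * k + 1) * t * s := by gcongr
  have hR1 : ((6 * k + 1 : ℤ) * t) * s = R := by rw [hR]; push_cast; ring
  have hR2 : ((6 * k + 1 : ℤ) * s) * t = R := by rw [hR]; push_cast; ring
  have x2 : ((w'.count 1 + w'.count 4 : ℕ) : ℤ) = 2 * j + 2 * R := by
    push_cast
    rw [d1, d4, p1, q1, p4, q4, ← hR1]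
    ring
  have x3 : ((w'.count 0 + w'.count 2 : ℕ) : ℤ) = 2 * k + R := by
    push_cast
    rw [d0, d2, ← hR1]
    linear_combination ((6 * k + 1 : ℤ) * t) * p02 + ((6 * k + 1 : ℤ) * s) * q02
  have x4 : ((w'.count 3 + w'.count 5 : ℕ) : ℤ) = 2 * k + R := by
    push_cast
    rw [d3, d5, ← hR2]
    linear_combination ((6 * k + 1 : ℤ) * t) * p35 + ((6 * k + 1 : ℤ) * s) * q35
  rcases ((mem_L7 w').1 hw').1 with h | h | h <;> omega

end Pool.Agent.W650.Fl
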