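import Pool.Agent.W650.FlUp
import Pool.Agent.W650.FlLow

set_option autoImplicit false

/-!
The sections of the counterexample are context-free.
-/

namespace Pool.Agent.W650.Fl

open Pool.Agent.Helper79.CFG Pool.Agent.Helper79.Trans

/-- Linked letters. -/
def Lk (a b p q : Fin 4) : Prop :=
  (p = 0 ∧ q = a) ∨ (p = 0 ∧ q = b) ∨ (p = a ∧ q = 0) ∨ (p = b ∧ q = 0) ∨ (p = 1 ∧ q = a) ∨
    (p = a ∧ q = 1)

/-- Words with linked letters. -/
inductive DD (a b : Fin 4) : List (Fin 4) → Prop
  | nil : DD a b []
  | one : DD a b [0]
  | app {u v : List (Fin 4)} : DD a b u → DD a b v → DD a b (u ++ v)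
  | wrap {p q : Fin 4} {u : List (Fin 4)} : Lk a b p q → DD a b u → DD a b (p :: (u ++ [q]))

open Classical in
/-- The rules for the linked words. -/
noncomputable def dRules (a b : Fin 4) : Finset (ContextFreeRule (Fin 4) Unit) :=
  insert ⟨(), []⟩ (insert ⟨(), [Symbol.terminal 0]⟩
    (insert ⟨(), [Symbol.nonterminal (), Symbol.nonterminal ()]⟩
      (((Finset.univ : Finset (Fin 4 × Fin 4)).filter (fun p => Lk a b p.1 p.2)).image
        (fun p => ⟨(), [Symbol.terminal p.1, Symbol.nonterminal (), Symbol.terminal p.2]⟩))))

theorem mem_dRules (a b : Fin 4) (r : ContextFreeRule (Fin 4) Unit) : r ∈ dRules a b ↔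
    r = ⟨(), []⟩ ∨ r = ⟨(), [Symbol.terminal 0]⟩ ∨
    r = ⟨(), [Symbol.nonterminal (), Symbol.nonterminal ()]⟩ ∨
    ∃ p q, Lk a b p q ∧
      r = ⟨(), [Symbol.terminal p, Symbol.nonterminal (), Symbol.terminal q]⟩ := by
  classical
  simp only [dRules, Finset.mem_insert, Finset.mem_image, Finset.mem_filter, Finset.mem_univ,
    true_and, Prod.exists]
  constructor
  · rintro (h | h | h | ⟨p, q, h1, rfl⟩)
    · exact Or.inl h
    · exact Or.inr (Or.inl h)
    · exact Or.inr (Or.inr (Or.inl h))
    · exact Or.inr (Or.inr (Or.inr ⟨p, q, h1, rfl⟩))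
  · rintro (h | h | h | ⟨p, q, h1, rfl⟩)
    · exact Or.inl h
    · exact Or.inr (Or.inl h)
    · exact Or.inr (Or.inr (Or.inl h))
    · exact Or.inr (Or.inr (Or.inr ⟨p, q, h1, rfl⟩))

/-- The grammar of the linked words. -/
noncomputable def dGram (a b : Fin 4) : ContextFreeGrammar (Fin 4) := ⟨Unit, (), dRules a b⟩

theorem cf_DD (a b : Fin 4) : Language.IsContextFree ({w | DD a b w} : Language (Fin 4)) := by
  refine ⟨dGram a b, ?_⟩
  ext w
  refine language_eq (dGram a b) (fun _ => {w | DD a b w}) ?_ ?_ w
  · intro r hr w hw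
    rcases (mem_dRules a b r).1 hr with rfl | rfl | rfl | ⟨p, q, hl, rfl⟩
    · have hw' : w = [] := hw
      subst hw'
      exact .nil
    · obtain ⟨v, rfl, hv⟩ := hw
      have hv' : v = [] := hv
      subst hv'
      exact .one
    · obtain ⟨u, v, rfl, hu, v1, v2, rfl, hv, hv2⟩ := hw
      have hv2' : v2 = [] := hv2
      subst hv2'
      rw [List.append_nil]
      exact .app hu hv
    · obtain ⟨v, rfl, u, v', rfl, hu, v2, rfl, hv2⟩ := hw
      have hv2' : v2 = [] := hv2
      subst hv2'
      exact .wrap hl hu
  · intro w hw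
    have hw' : DD a b w := hw
    clear hw
    induction hw' with
    | nil =>
      exact gen_of_rule (dGram a b) ⟨(), []⟩ ((mem_dRules a b _).2 (Or.inl rfl)) [] rfl
    | one =>
      exact gen_of_rule (dGram a b) ⟨(), [Symbol.terminal 0]⟩
        ((mem_dRules a b _).2 (Or.inr (Or.inl rfl))) [0] ⟨[], rfl, rfl⟩
    | @app u v _ _ ih1 ih2 =>
      exact gen_of_rule (dGram a b) ⟨(), [Symbol.nonterminal (), Symbol.nonterminal ()]⟩
        ((mem_dRules a b _).2 (Or.inr (Or.inr (Or.inl rfl)))) (u ++ v)
        ⟨u, v, rfl, ih1, v, [], by simp, ih2, rfl⟩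
    | @wrap p q u hl _ ih =>
      exact gen_of_rule (dGram a b) ⟨(), [Symbol.terminal p, Symbol.nonterminal (),
        Symbol.terminal q]⟩ ((mem_dRules a b _).2 (Or.inr (Or.inr (Or.inr ⟨p, q, hl, rfl⟩)))) _
        ⟨u ++ [q], rfl, u, [q], rfl, ih, [], rfl, rfl⟩

/-- Insertion of a linked word in a linked word. -/
theorem DD.ins {a b : Fin 4} {w : List (Fin 4)} (h : DD a b w) : ∀ u v, w = u ++ v →
    ∀ m, DD a b m → DD a b (u ++ m ++ v) := by
  induction h with
  | nil =>
    intro u v h m hm
    have h' := List.append_eq_nil_iff.1 h.symm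
    rw [h'.1, h'.2]
    simpa using hm
  | one =>
    intro u v h m hm
    cases u with
    | nil =>
      simp only [List.nil_append] at h ⊢
      subst h
      exact .app hm .one
    | cons x u =>
      simp only [List.cons_append, List.cons.injEq] at h
      obtain ⟨rfl, h⟩ := h
      have h' := List.append_eq_nil_iff.1 h.symm
      rw [h'.1, h'.2]
      simpa using DD.app .one hm
  | @app x y hx hy ih1 ih2 =>
    intro u v h m hm
    rcases List.append_eq_append_iff.1 h with ⟨c, rfl, rfl⟩ | ⟨c, rfl, rfl⟩
    · have := DD.app hx (ih2 c v rfl m hm)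
      simpa [List.append_assoc] using this
    · have := DD.app (ih1 u c rfl m hm) hy
      simpa [List.append_assoc] using this
  | @wrap p q x hl hx ih =>
    intro u v h m hm
    cases u with
    | nil =>
      simp only [List.nil_append] at h ⊢
      subst h
      exact .app hm (.wrap hl hx)
    | cons p' u =>
      simp only [List.cons_append, List.cons.injEq] at h
      obtain ⟨rfl, h⟩ := h
      rcases List.append_eq_append_iff.1 h with ⟨c, rfl, h2⟩ | ⟨c, rfl, rfl⟩
      · cases c with
        | nil =>
          simp only [List.nil_append] at h2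
          subst h2
          have := DD.wrap hl (DD.app hx hm)
          simpa [List.append_assoc] using this
        | cons q' c =>
          simp only [List.cons_append, List.cons.injEq] at h2
          obtain ⟨rfl, h2⟩ := h2
          have h' := List.append_eq_nil_iff.1 h2.symm
          rw [h'.1, h'.2]
          have := DD.app (DD.wrap hl hx) hm
          simpa [List.append_assoc] using this
      · have := DD.wrap hl (ih u c rfl m hm)
        simpa [List.append_assoc] using this

theorem DD.counts {a b : Fin 4} (hab : (a = 2 ∧ b = 3) ∨ (a = 3 ∧ b = 2)) {w : List (Fin 4)}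
    (h : DD a b w) : w.count 1 ≤ w.count a ∧ w.count a + w.count b ≤ w.count 0 + w.count 1 := by
  induction h with
  | nil => simp
  | one => rcases hab with ⟨rfl, rfl⟩ | ⟨rfl, rfl⟩ <;> simp
  | app _ _ ih1 ih2 =>
    simp only [List.count_append]
    omega
  | wrap hl _ ih =>
    rcases hab with ⟨rfl, rfl⟩ | ⟨rfl, rfl⟩ <;>
    rcases hl with ⟨rfl, rfl⟩ | ⟨rfl, rfl⟩ | ⟨rfl, rfl⟩ | ⟨rfl, rfl⟩ | ⟨rfl, rfl⟩ | ⟨rfl, rfl⟩ <;>
    simp [List.count_append] <;> omega

/-- Adjacent letters in a sorted word. -/
theorem adj_split {r : Fin 4 → Fin 4} (hr : Function.Injective r) {w : List (Fin 4)}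
    (hs : w.Pairwise (fun x y => r x ≤ r y)) {p q : Fin 4} (hp : p ∈ w) (hq : q ∈ w)
    (hpq : r p < r q) (hno : ∀ c ∈ w, ¬ (r p < r c ∧ r c < r q)) :
    ∃ u v, w = u ++ p :: q :: v := by
  obtain ⟨s, t, rfl, hqs⟩ := List.eq_append_cons_of_mem hq
  rw [List.pairwise_append, List.pairwise_cons] at hs
  obtain ⟨h1, ⟨h2, h3⟩, h4⟩ := hs
  have hps : p ∈ s := by
    rcases List.mem_append.1 hp with h | h
    · exact h
    · rcases List.mem_cons.1 h with rfl | h
      · exact absurd hpq (lt_irrefl _)
      · exact absurd (h2 p h) (not_le.2 hpq)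
  rcases List.eq_nil_or_concat s with rfl | ⟨s', z, rfl⟩
  · simp at hps
  · have hzw : z ∈ s'.concat z ++ q :: t := by simp
    have hz1 : r z ≤ r q := h4 z (by simp) q (by simp)
    have hz2 : z ≠ q := by
      rintro rfl
      exact hqs (by simp)
    have hz3 : r z < r q := lt_of_le_of_ne hz1 (fun h => hz2 (hr h))
    have hz4 : r p ≤ r z := by
      rw [List.concat_eq_append, List.pairwise_append] at h1
      rw [List.concat_eq_append] at hps
      rcases List.mem_append.1 hps with h | h
      · exact h1.2.2 p h z (by simp)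
      · have : p = z := by simpa using h
        rw [this]
    have hz5 : r p = r z := by
      by_contra hne
      exact hno z hzw ⟨lt_of_le_of_ne hz4 hne, hz3⟩
    have hz6 : p = z := hr hz5
    subst hz6
    exact ⟨s', t, by simp⟩

/-- `y` is strictly between `x` and `z`. -/
def bt (x y z : Fin 4) : Bool := (decide (x < y) && decide (y < z)) || (decide (z < y) && decide (y < x))

/-- crossing pairs -/
def Cr (r0 r1 ra rb : Fin 4) : Bool := xor (bt r1 r0 ra) (bt r1 rb ra)

/-- distinct ranks -/
def dis (r0 r1 ra rb : Fin 4) : Bool := decide (r0 ≠ r1) && decide (r0 ≠ ra) && decide (r0 ≠ rb) &&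
  decide (r1 ≠ ra) && decide (r1 ≠ rb) && decide (ra ≠ rb)

/-- one of the linked pairs is adjacent -/
def good (r0 r1 ra rb : Fin 4) (T A B : Bool) : Bool :=
  (T && !(bt r1 r0 ra && (A || B)) && !(bt r1 rb ra && B)) ||
  (A && !(bt r0 r1 ra && T) && !(bt r0 rb ra && B)) ||
  (B && !(bt r0 r1 rb && T) && !(bt r0 ra rb && (T || A)))

theorem comb0 : ∀ r0 r1 ra rb : Fin 4, dis r0 r1 ra rb = true → Cr r0 r1 ra rb = false →
    ∀ T A B : Bool, (T || A || B) = true → good r0 r1 ra rb T A B = true := by
  decide +kernel

theorem nocr0 : ∀ r0 r1 ra rb : Fin 4, dis r0 r1 ra rb = true →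
    (Cr r0 r1 ra rb = false ∨ Cr r0 r1 rb ra = false) := by
  decide +kernel

theorem good_cases (r0 r1 ra rb : Fin 4) (T A B : Bool) (h : good r0 r1 ra rb T A B = true) :
    (T = true ∧ (A = true ∨ B = true → bt r1 r0 ra = false) ∧ (B = true → bt r1 rb ra = false)) ∨
    (A = true ∧ (T = true → bt r0 r1 ra = false) ∧ (B = true → bt r0 rb ra = false)) ∨
    (B = true ∧ (T = true → bt r0 r1 rb = false) ∧
      (T = true ∨ A = true → bt r0 ra rb = false)) := by
  unfold good at h
  generalize bt r1 r0 ra = b1 at *
  generalize bt r1 rb ra = b2 at *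
  generalize bt r0 r1 ra = b3 at *
  generalize bt r0 rb ra = b4 at *
  generalize bt r0 r1 rb = b5 at *
  generalize bt r0 ra rb = b6 at *
  cases T <;> cases A <;> cases B <;> simp_all [or_assoc]

theorem bt_left (x z : Fin 4) : bt x x z = false := by
  revert x z; decide

theorem bt_right (x z : Fin 4) : bt x z z = false := by
  revert x z; decide

theorem dd_of_sorted {a b : Fin 4} (hab : (a = 2 ∧ b = 3) ∨ (a = 3 ∧ b = 2)) {r : Fin 4 → Fin 4}
    (hr : Function.Injective r) (hx : Cr (r 0) (r 1) (r a) (r b) = false) :
    ∀ (n : ℕ) (w : List (Fin 4)), w.length ≤ n → w.Pairwise (fun x y => r x ≤ r y) →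
      w.count 1 ≤ w.count a → w.count a + w.count b ≤ w.count 0 + w.count 1 → DD a b w := by
  have hcov : ∀ c : Fin 4, c = 0 ∨ c = 1 ∨ c = a ∨ c = b := by
    rcases hab with ⟨rfl, rfl⟩ | ⟨rfl, rfl⟩ <;> decide
  have hne : a ≠ 0 ∧ a ≠ 1 ∧ b ≠ 0 ∧ b ≠ 1 ∧ a ≠ b := by
    rcases hab with ⟨rfl, rfl⟩ | ⟨rfl, rfl⟩ <;> decide
  obtain ⟨ha0, ha1, hb0, hb1, hab'⟩ := hne
  have hdis : dis (r 0) (r 1) (r a) (r b) = true := by
    unfold dis
    simp [hr.eq_iff, ha0.symm, hb0.symm, ha1.symm, hb1.symm, hab']
  intro n
  induction n with
  | zero =>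
    intro w hw _ _ _
    rw [List.length_eq_zero_iff.1 (by omega : w.length = 0)]
    exact .nil
  | succ n ih =>
    intro w hw hs h1 h2
    by_cases hw0 : w = []
    · rw [hw0]; exact .nil
    by_cases h0 : w.count a + w.count b < w.count 0 + w.count 1
    · have hm : (0 : Fin 4) ∈ w := List.count_pos_iff.1 (by omega)
      obtain ⟨u, v, rfl⟩ := List.append_of_mem hm
      have hsub : (u ++ v).Sublist (u ++ 0 :: v) :=
        (List.Sublist.refl u).append (List.sublist_cons_self 0 v)
      simp only [List.count_append, List.count_cons, List.length_append, List.length_cons]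
        at h0 h1 h2 hw
      simp [ha0.symm, hb0.symm] at h0 h1 h2
      have hd := ih (u ++ v) (by simp only [List.length_append]; omega) (hs.sublist hsub)
        (by simp only [List.count_append]; omega) (by simp only [List.count_append]; omega)
      have := hd.ins u v rfl [0] .one
      simpa using this
    · have heq : w.count a + w.count b = w.count 0 + w.count 1 := by omega
      have rem : ∀ p q : Fin 4, Lk a b p q → Lk a b q p → p ∈ w → q ∈ w → p ≠ q →
          (∀ c ∈ w, bt (r p) (r c) (r q) = false) →
          (∀ w' : List (Fin 4), w'.length + 2 = w.length →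
            w'.Pairwise (fun x y => r x ≤ r y) →
            (∀ c, w.count c = w'.count c + (if p = c then 1 else 0) + (if q = c then 1 else 0)) →
            DD a b w') → DD a b w := by
        intro p q hl hl' hp hq hpq hno hrec
        have hrpq : r p ≠ r q := fun h => hpq (hr h)
        rcases lt_or_gt_of_ne hrpq with hlt | hlt
        · obtain ⟨u, v, rfl⟩ := adj_split hr hs hp hq hlt (by
            intro c hc h
            have := hno c hc
            simp [bt, h.1, h.2] at this)
          have hd := hrec (u ++ v) (by simp; omega) (hs.sublist ((List.Sublist.refl u).append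
            ((List.sublist_cons_self q v).trans (List.sublist_cons_self p _)))) (by
              intro c
              simp only [List.count_append, List.count_cons, beq_iff_eq]
              ring)
          have := hd.ins u v rfl [p, q] (DD.wrap hl DD.nil)
          simpa using this
        · obtain ⟨u, v, rfl⟩ := adj_split hr hs hq hp hlt (by
            intro c hc h
            have := hno c hc
            simp [bt, h.1, h.2] at this)
          have hd := hrec (u ++ v) (by simp; omega) (hs.sublist ((List.Sublist.refl u).append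
            ((List.sublist_cons_self p v).trans (List.sublist_cons_self q _)))) (by
              intro c
              simp only [List.count_append, List.count_cons, beq_iff_eq]
              ring)
          have := hd.ins u v rfl [q, p] (DD.wrap hl' DD.nil)
          simpa using this
      have hTAB : (decide (0 < w.count 1) || decide (w.count 1 < w.count a) ||
          decide (0 < w.count b)) = true := by
        by_contra hc
        simp only [Bool.or_eq_true, decide_eq_true_eq, not_or, not_lt] at hc
        obtain ⟨⟨hc1, hc2⟩, hc3⟩ := hc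
        have hall : ∀ c : Fin 4, w.count c = 0 := by
          intro c
          rcases hcov c with rfl | rfl | rfl | rfl <;> omega
        cases w with
        | nil => exact hw0 rfl
        | cons x w => have := hall x; simp at this
      have hg := good_cases _ _ _ _ _ _ _ (comb0 _ _ _ _ hdis hx _ _ _ hTAB)
      simp only [decide_eq_true_eq] at hg
      have mem_of : ∀ {c : Fin 4}, 0 < w.count c → c ∈ w := fun h => List.count_pos_iff.1 h
      have pos_of : ∀ {c : Fin 4}, c ∈ w → 0 < w.count c := fun h => List.count_pos_iff.2 h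
      rcases hg with ⟨g1, g2, g3⟩ | ⟨g1, g2, g3⟩ | ⟨g1, g2, g3⟩
      · refine rem 1 a (by simp [Lk]) (by simp [Lk]) (mem_of g1) (mem_of (by omega)) ha1.symm
          ?_ ?_
        · intro c hc
          have hp := pos_of hc
          rcases hcov c with rfl | rfl | rfl | rfl
          · exact g2 (by omega)
          · exact bt_left _ _
          · exact bt_right _ _
          · exact g3 hp
        · intro w' hl hs' hc
          have e0 := hc 0
          have e1 := hc 1
          have ea := hc a
          have eb := hc b
          simp [ha0, ha1, hb0, hb1, hab', ha0.symm, ha1.symm, hb0.symm, hb1.symm] at e0 e1 ea eb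
          exact ih w' (by omega) hs' (by omega) (by omega)
      · refine rem 0 a (by simp [Lk]) (by simp [Lk]) (mem_of (by omega)) (mem_of (by omega))
          ha0.symm ?_ ?_
        · intro c hc
          have hp := pos_of hc
          rcases hcov c with rfl | rfl | rfl | rfl
          · exact bt_left _ _
          · exact g2 hp
          · exact bt_right _ _
          · exact g3 hp
        · intro w' hl hs' hc
          have e0 := hc 0
          have e1 := hc 1
          have ea := hc a
          have eb := hc b
          simp [ha0, ha1, hb0, hb1, hab', ha0.symm, ha1.symm, hb0.symm, hb1.symm] at e0 e1 ea eb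
          exact ih w' (by omega) hs' (by omega) (by omega)
      · refine rem 0 b (by simp [Lk]) (by simp [Lk]) (mem_of (by omega)) (mem_of (by omega))
          hb0.symm ?_ ?_
        · intro c hc
          have hp := pos_of hc
          rcases hcov c with rfl | rfl | rfl | rfl
          · exact bt_left _ _
          · exact g2 hp
          · exact g3 (by omega)
          · exact bt_right _ _
        · intro w' hl hs' hc
          have e0 := hc 0
          have e1 := hc 1
          have ea := hc a
          have eb := hc b
          simp [ha0, ha1, hb0, hb1, hab', hab'.symm, ha0.symm, ha1.symm, hb0.symm, hb1.symm]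
            at e0 e1 ea eb
          exact ih w' (by omega) hs' (by omega) (by omega)

end Pool.Agent.W650.Fl
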