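import Mathlib

set_option autoImplicit false

/-!
Binary derivation systems: decomposition of a derivation into a short word and short loops, and
simultaneous insertion of two loops whose labels occur in one derivation.
-/

namespace Pool.Agent.W650.Fl

/-- A binary derivation system with labels `I` over the alphabet `T`. -/
structure Sys (I T : Type) where
  E : I → Prop
  Tm : I → T → I → Prop
  Bn : I → I → I → Prop

variable {I T : Type} (s : Sys I T)

/-- Words derived from a label. -/
inductive Der : I → List T → Prop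
  | e {i : I} : s.E i → Der i []
  | t {i : I} {a : T} {j : I} {w : List T} : s.Tm i a j → Der j w → Der i (a :: w)
  | b {i j k : I} {u v : List T} : s.Bn i j k → Der j u → Der k v → Der i (u ++ v)

/-- Derivations with a hole. -/
inductive Ctx : I → I → List T → List T → Prop
  | refl (i : I) : Ctx i i [] []
  | t {i : I} {a : T} {j A : I} {x y : List T} : s.Tm i a j → Ctx j A x y → Ctx i A (a :: x) y
  | bl {i j k A : I} {x y w : List T} : s.Bn i j k → Ctx j A x y → Der s k w → Ctx i A x (y ++ w)
  | br {i j k A : I} {x y w : List T} : s.Bn i j k → Der s j w → Ctx k A x y → Ctx i A (w ++ x) y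

/-- Derivations with the set of labels used. -/
inductive DS : I → List T → Set I → Prop
  | e {i : I} : s.E i → DS i [] {i}
  | t {i : I} {a : T} {j : I} {w : List T} {S : Set I} : s.Tm i a j → DS j w S →
      DS i (a :: w) (insert i S)
  | b {i j k : I} {u v : List T} {S S' : Set I} : s.Bn i j k → DS j u S → DS k v S' →
      DS i (u ++ v) (insert i (S ∪ S'))

/-- Derivations without repetition of a label on a branch and without the labels of `F`. -/
inductive PF : Set I → I → List T → Prop
  | e {F : Set I} {i : I} : i ∉ F → s.E i → PF F i []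
  | t {F : Set I} {i : I} {a : T} {j : I} {w : List T} : i ∉ F → s.Tm i a j →
      PF (insert i F) j w → PF F i (a :: w)
  | b {F : Set I} {i j k : I} {u v : List T} : i ∉ F → s.Bn i j k → PF (insert i F) j u →
      PF (insert i F) k v → PF F i (u ++ v)

variable {s}

theorem Der.toDS {i : I} {w : List T} (h : Der s i w) : ∃ S, DS s i w S := by
  induction h with
  | e h => exact ⟨_, .e h⟩
  | t h _ ih => obtain ⟨S, hS⟩ := ih; exact ⟨_, .t h hS⟩
  | b h _ _ ih1 ih2 =>
    obtain ⟨S, hS⟩ := ih1
    obtain ⟨S', hS'⟩ := ih2
    exact ⟨_, .b h hS hS'⟩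

theorem DS.toDer {i : I} {w : List T} {S : Set I} (h : DS s i w S) : Der s i w := by
  induction h with
  | e h => exact .e h
  | t h _ ih => exact .t h ih
  | b h _ _ ih1 ih2 => exact .b h ih1 ih2

theorem DS.root {i : I} {w : List T} {S : Set I} (h : DS s i w S) : i ∈ S := by
  cases h with
  | e h => exact Set.mem_singleton _
  | t h _ => exact Set.mem_insert _ _
  | b h _ _ => exact Set.mem_insert _ _

theorem PF.toDer {F : Set I} {i : I} {w : List T} (h : PF s F i w) : Der s i w := by
  induction h with
  | e _ h => exact .e h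
  | t _ h _ ih => exact .t h ih
  | b _ h _ _ ih1 ih2 => exact .b h ih1 ih2

theorem PF.mono {F : Set I} {i : I} {w : List T} (h : PF s F i w) :
    ∀ {F' : Set I}, F' ⊆ F → PF s F' i w := by
  induction h with
  | e hi h => intro F' hF; exact .e (fun h' => hi (hF h')) h
  | t hi h _ ih =>
    intro F' hF
    exact .t (fun h' => hi (hF h')) h (ih (Set.insert_subset_insert hF))
  | b hi h _ _ ih1 ih2 =>
    intro F' hF
    exact .b (fun h' => hi (hF h')) h (ih1 (Set.insert_subset_insert hF))
      (ih2 (Set.insert_subset_insert hF))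

theorem Ctx.der {i A : I} {x y : List T} (h : Ctx s i A x y) {z : List T} (hz : Der s A z) :
    Der s i (x ++ z ++ y) := by
  induction h with
  | refl i => simpa using hz
  | t h _ ih => exact .t h (ih hz)
  | bl h _ hk ih =>
    have := Der.b h (ih hz) hk
    simpa [List.append_assoc] using this
  | br h hj _ ih =>
    have := Der.b h hj (ih hz)
    simpa [List.append_assoc] using this

theorem Ctx.trans {i A B : I} {x y x' y' : List T} (h : Ctx s i A x y) (h' : Ctx s A B x' y') :
    Ctx s i B (x ++ x') (y' ++ y) := by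
  induction h with
  | refl i => simpa using h'
  | t h _ ih => exact .t h (ih h')
  | bl h _ hk ih =>
    have := Ctx.bl h (ih h') hk
    simpa [List.append_assoc] using this
  | br h hj _ ih =>
    have := Ctx.br h hj (ih h')
    simpa [List.append_assoc] using this

/-- Powers of a word. -/
def rp (n : ℕ) (u : List T) : List T := (List.replicate n u).flatten

theorem rp_zero (u : List T) : rp 0 u = [] := rfl

theorem rp_succ (n : ℕ) (u : List T) : rp (n + 1) u = u ++ rp n u := by
  simp [rp, List.replicate_succ]

theorem rp_succ' (n : ℕ) (u : List T) : rp (n + 1) u = rp n u ++ u := by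
  simp [rp, List.replicate_succ']

theorem count_rp [DecidableEq T] (a : T) (n : ℕ) (u : List T) :
    (rp n u).count a = n * u.count a := by
  induction n with
  | zero => simp [rp]
  | succ n ih => rw [rp_succ, List.count_append, ih]; ring

theorem Ctx.pow {A : I} {u v : List T} (h : Ctx s A A u v) (n : ℕ) :
    Ctx s A A (rp n u) (rp n v) := by
  induction n with
  | zero => exact .refl A
  | succ n ih =>
    rw [rp_succ, rp_succ']
    exact h.trans ih

/-- Finding a label in a derivation without repetitions. -/
theorem PF.find (A : I) {F : Set I} {i : I} {w : List T} (h : PF s F i w) :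
    PF s (insert A F) i w ∨ ∃ x y z, w = x ++ z ++ y ∧ Ctx s i A x y ∧ PF s F A z := by
  classical
  induction h with
  | @e F i hi h =>
    by_cases hA : i = A
    · subst hA
      exact Or.inr ⟨[], [], [], rfl, .refl _, .e hi h⟩
    · exact Or.inl (.e (by simp [hA, hi]) h)
  | @t F i a j w hi h hp ih =>
    by_cases hA : i = A
    · subst hA
      exact Or.inr ⟨[], [], a :: w, by simp, .refl _, .t hi h hp⟩
    · rcases ih with ih | ⟨x, y, z, rfl, hc, hz⟩
      · refine Or.inl (.t (by simp [hA, hi]) h ?_)
        rwa [Set.insert_comm]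
      · exact Or.inr ⟨a :: x, y, z, by simp, .t h hc, hz.mono (Set.subset_insert _ _)⟩
  | @b F i j k u v hi h hp1 hp2 ih1 ih2 =>
    by_cases hA : i = A
    · subst hA
      exact Or.inr ⟨[], [], u ++ v, by simp, .refl _, .b hi h hp1 hp2⟩
    · rcases ih1 with ih1 | ⟨x, y, z, rfl, hc, hz⟩
      · rcases ih2 with ih2 | ⟨x, y, z, rfl, hc, hz⟩
        · refine Or.inl (.b (by simp [hA, hi]) h ?_ ?_)
          · rwa [Set.insert_comm]
          · rwa [Set.insert_comm]
        · exact Or.inr ⟨u ++ x, y, z, by simp, .br h hp1.toDer hc,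
            hz.mono (Set.subset_insert _ _)⟩
      · exact Or.inr ⟨x, y ++ v, z, by simp, .bl h hc hp2.toDer, hz.mono (Set.subset_insert _ _)⟩

/-- Words derived without repetitions are short. -/
theorem PF.len (U : Set I) (hU : U.Finite) (ht : ∀ i a j, s.Tm i a j → i ∈ U → j ∈ U)
    (hb : ∀ i j k, s.Bn i j k → i ∈ U → j ∈ U ∧ k ∈ U) {F : Set I} {i : I} {w : List T}
    (h : PF s F i w) : i ∈ U → w.length + 1 ≤ 2 ^ (U \ F).ncard := by
  have key : ∀ {F : Set I} {i : I}, i ∉ F → i ∈ U →
      (U \ F).ncard = (U \ insert i F).ncard + 1 := by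
    intro F i hi hiU
    have h1 : U \ F = insert i (U \ insert i F) := by
      ext x
      by_cases hx : x = i
      · subst hx; simp [hiU, hi]
      · simp [hx]
    rw [h1, Set.ncard_insert_of_notMem (by simp) (hU.subset Set.diff_subset)]
  induction h with
  | e hi h => intro _; simpa using Nat.one_le_two_pow
  | t hi h _ ih =>
    intro hiU
    have h1 := ih (ht _ _ _ h hiU)
    rw [key hi hiU, pow_succ]
    simp only [List.length_cons]
    omega
  | b hi h _ _ ih1 ih2 =>
    intro hiU
    have h1 := ih1 (hb _ _ _ h hiU).1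
    have h2 := ih2 (hb _ _ _ h hiU).2
    rw [key hi hiU, pow_succ]
    simp only [List.length_append]
    omega

section Main

variable [DecidableEq T]

/-- number of letters `a` in a list of pairs of words -/
def tot (ps : List (I × List T × List T)) (a : T) : ℕ :=
  (ps.map fun p => p.2.1.count a + p.2.2.count a).sum

theorem tot_append (ps qs : List (I × List T × List T)) (a : T) :
    tot (ps ++ qs) a = tot ps a + tot qs a := by
  simp [tot]

theorem tot_cons (p : I × List T × List T) (ps : List (I × List T × List T)) (a : T) :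
    tot (p :: ps) a = (p.2.1.count a + p.2.2.count a) + tot ps a := by
  simp [tot]

/-- Decomposition of a derivation in a short word and short loops. -/
theorem DS.decomp (U : Set I) (hU : U.Finite) (ht : ∀ i a j, s.Tm i a j → i ∈ U → j ∈ U)
    (hb : ∀ i j k, s.Bn i j k → i ∈ U → j ∈ U ∧ k ∈ U) {i : I} {w : List T} {S : Set I}
    (h : DS s i w S) : i ∈ U → ∃ (w0 : List T) (ps : List (I × List T × List T)),
      PF s ∅ i w0 ∧ (∀ p ∈ ps, p.1 ∈ S ∧ Ctx s p.1 p.1 p.2.1 p.2.2 ∧
        p.2.1.length + p.2.2.length ≤ 2 * 2 ^ U.ncard) ∧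
      ∀ a, w.count a = w0.count a + tot ps a := by
  have hlen : ∀ {i : I} {w : List T}, PF s ∅ i w → i ∈ U → w.length + 1 ≤ 2 ^ U.ncard := by
    intro i w hp hi
    simpa using hp.len U hU ht hb hi
  induction h with
  | e h =>
    intro _
    exact ⟨[], [], .e (by simp) h, by simp, by simp [tot]⟩
  | @t i a j w S h hd ih =>
    intro hiU
    have hjU := ht _ _ _ h hiU
    obtain ⟨w0, ps, h1, h2, h3⟩ := ih hjU
    have hl := hlen h1 hjU
    rcases h1.find i with h4 | ⟨x, y, z, rfl, hc, hz⟩
    · refine ⟨a :: w0, ps, .t (by simp) h (by simpa using h4), ?_, ?_⟩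
      · intro p hp
        obtain ⟨g1, g2, g3⟩ := h2 p hp
        exact ⟨Set.mem_insert_of_mem _ g1, g2, g3⟩
      · intro b
        rw [List.count_cons, List.count_cons, h3 b]
        omega
    · refine ⟨z, (i, a :: x, y) :: ps, hz, ?_, ?_⟩
      · intro p hp
        rcases List.mem_cons.1 hp with rfl | hp
        · refine ⟨Set.mem_insert _ _, .t h hc, ?_⟩
          simp only [List.length_append, List.length_cons] at hl ⊢
          omega
        · obtain ⟨g1, g2, g3⟩ := h2 p hp
          exact ⟨Set.mem_insert_of_mem _ g1, g2, g3⟩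
      · intro b
        have := h3 b
        rw [tot_cons]
        simp only [List.count_cons, List.count_append] at this ⊢
        omega
  | @b i j k u v S S' h hd1 hd2 ih1 ih2 =>
    intro hiU
    obtain ⟨hjU, hkU⟩ := hb _ _ _ h hiU
    obtain ⟨w1, ps1, h1, h2, h3⟩ := ih1 hjU
    obtain ⟨w2, ps2, k1, k2, k3⟩ := ih2 hkU
    have hl1 := hlen h1 hjU
    have hl2 := hlen k1 hkU
    have hps : ∀ p ∈ ps1 ++ ps2, p.1 ∈ insert i (S ∪ S') ∧ Ctx s p.1 p.1 p.2.1 p.2.2 ∧
        p.2.1.length + p.2.2.length ≤ 2 * 2 ^ U.ncard := by
      intro p hp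
      rcases List.mem_append.1 hp with hp | hp
      · obtain ⟨g1, g2, g3⟩ := h2 p hp
        exact ⟨Set.mem_insert_of_mem _ (Or.inl g1), g2, g3⟩
      · obtain ⟨g1, g2, g3⟩ := k2 p hp
        exact ⟨Set.mem_insert_of_mem _ (Or.inr g1), g2, g3⟩
    rcases h1.find i with h4 | ⟨x, y, z, rfl, hc, hz⟩
    · rcases k1.find i with k4 | ⟨x, y, z, rfl, hc, hz⟩
      · refine ⟨w1 ++ w2, ps1 ++ ps2, .b (by simp) h (by simpa using h4) (by simpa using k4),
          hps, ?_⟩
        intro a
        rw [tot_append, List.count_append, List.count_append, h3 a, k3 a]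
        omega
      · refine ⟨z, (i, w1 ++ x, y) :: (ps1 ++ ps2), hz, ?_, ?_⟩
        · intro p hp
          rcases List.mem_cons.1 hp with rfl | hp
          · refine ⟨Set.mem_insert _ _, .br h h1.toDer hc, ?_⟩
            simp only [List.length_append] at hl2 ⊢
            omega
          · exact hps p hp
        · intro a
          have g1 := h3 a
          have g2 := k3 a
          rw [tot_cons, tot_append]
          simp only [List.count_append] at g1 g2 ⊢
          omega
    · refine ⟨z, (i, x, y ++ w2) :: (ps1 ++ ps2), hz, ?_, ?_⟩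
      · intro p hp
        rcases List.mem_cons.1 hp with rfl | hp
        · refine ⟨Set.mem_insert _ _, .bl h hc k1.toDer, ?_⟩
          simp only [List.length_append] at hl1 ⊢
          omega
        · exact hps p hp
      · intro a
        have g1 := h3 a
        have g2 := k3 a
        rw [tot_cons, tot_append]
        simp only [List.count_append] at g1 g2 ⊢
        omega

/-- Insertion of one loop. -/
theorem DS.ins1 {i : I} {w : List T} {S : Set I} (h : DS s i w S) {A : I} {u v : List T}
    (hA : A ∈ S) (hc : Ctx s A A u v) (N : ℕ) :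
    ∃ w', Der s i w' ∧ (∀ a, w'.count a = w.count a + N * (u.count a + v.count a)) ∧
      (rp N u ++ rp N v).Sublist w' := by
  have base : ∀ {i : I} {w : List T}, Der s i w → A = i →
      ∃ w', Der s i w' ∧ (∀ a, w'.count a = w.count a + N * (u.count a + v.count a)) ∧
      (rp N u ++ rp N v).Sublist w' := by
    intro i w hd hi
    subst hi
    refine ⟨rp N u ++ w ++ rp N v, (hc.pow N).der hd, ?_, ?_⟩
    · intro a
      simp only [List.count_append, count_rp]
      ring
    · exact (List.sublist_append_left _ _).append (List.Sublist.refl _)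
  induction h with
  | e h => exact base (.e h) (by simpa using hA)
  | @t i a j w S h hd ih =>
    rcases Set.mem_insert_iff.1 hA with hA | hA
    · exact base (.t h hd.toDer) hA
    · obtain ⟨w', h1, h2, h3⟩ := ih hA
      refine ⟨a :: w', .t h h1, ?_, h3.cons a⟩
      intro b
      rw [List.count_cons, List.count_cons, h2 b]
      omega
  | @b i j k x y S S' h hd1 hd2 ih1 ih2 =>
    rcases Set.mem_insert_iff.1 hA with hA | hA
    · exact base (.b h hd1.toDer hd2.toDer) hA
    · rcases hA with hA | hA
      · obtain ⟨w', h1, h2, h3⟩ := ih1 hA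
        refine ⟨w' ++ y, .b h h1 hd2.toDer, ?_, h3.trans (List.sublist_append_left _ _)⟩
        intro b
        rw [List.count_append, List.count_append, h2 b]
        omega
      · obtain ⟨w', h1, h2, h3⟩ := ih2 hA
        refine ⟨x ++ w', .b h hd1.toDer h1, ?_, h3.trans (List.sublist_append_right _ _)⟩
        intro b
        rw [List.count_append, List.count_append, h2 b]
        omega

/-- The patterns of two loops inserted in one derivation. -/
def Pat (u v u' v' : List T) (N M : ℕ) (w : List T) : Prop :=
  ((rp N u ++ rp N v) ++ (rp M u' ++ rp M v')).Sublist w ∨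
  ((rp M u' ++ rp M v') ++ (rp N u ++ rp N v)).Sublist w ∨
  (rp N u ++ (rp M u' ++ rp M v') ++ rp N v).Sublist w ∨
  (rp M u' ++ (rp N u ++ rp N v) ++ rp M v').Sublist w

theorem Pat.mono {u v u' v' : List T} {N M : ℕ} {w w' : List T} (h : Pat u v u' v' N M w)
    (hw : w.Sublist w') : Pat u v u' v' N M w' := by
  rcases h with h | h | h | h
  · exact Or.inl (h.trans hw)
  · exact Or.inr (Or.inl (h.trans hw))
  · exact Or.inr (Or.inr (Or.inl (h.trans hw)))
  · exact Or.inr (Or.inr (Or.inr (h.trans hw)))

/-- Insertion of two loops. -/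
theorem DS.ins2 {i : I} {w : List T} {S : Set I} (h : DS s i w S) {A B : I}
    {u v u' v' : List T} (hA : A ∈ S) (hB : B ∈ S) (hc : Ctx s A A u v) (hc' : Ctx s B B u' v')
    (N M : ℕ) :
    ∃ w', Der s i w' ∧ (∀ a, w'.count a = w.count a + N * (u.count a + v.count a) +
      M * (u'.count a + v'.count a)) ∧ Pat u v u' v' N M w' := by
  have base1 : ∀ {i : I} {w : List T} {S : Set I}, DS s i w S → A = i → B ∈ S →
      ∃ w', Der s i w' ∧ (∀ a, w'.count a = w.count a + N * (u.count a + v.count a) +
      M * (u'.count a + v'.count a)) ∧ Pat u v u' v' N M w' := by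
    intro i w S hd hi hB
    subst hi
    obtain ⟨w', h1, h2, h3⟩ := hd.ins1 hB hc' M
    refine ⟨rp N u ++ w' ++ rp N v, (hc.pow N).der h1, ?_, ?_⟩
    · intro a
      simp only [List.count_append, count_rp, h2 a]
      ring
    · refine Or.inr (Or.inr (Or.inl ?_))
      exact ((List.Sublist.refl _).append h3).append (List.Sublist.refl _)
  have base2 : ∀ {i : I} {w : List T} {S : Set I}, DS s i w S → B = i → A ∈ S →
      ∃ w', Der s i w' ∧ (∀ a, w'.count a = w.count a + N * (u.count a + v.count a) +
      M * (u'.count a + v'.count a)) ∧ Pat u v u' v' N M w' := by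
    intro i w S hd hi hA
    subst hi
    obtain ⟨w', h1, h2, h3⟩ := hd.ins1 hA hc N
    refine ⟨rp M u' ++ w' ++ rp M v', (hc'.pow M).der h1, ?_, ?_⟩
    · intro a
      simp only [List.count_append, count_rp, h2 a]
      ring
    · refine Or.inr (Or.inr (Or.inr ?_))
      exact ((List.Sublist.refl _).append h3).append (List.Sublist.refl _)
  induction h with
  | @e i h => exact base1 (.e h) (by simpa using hA) hB
  | @t i a j w S h hd ih =>
    rcases Set.mem_insert_iff.1 hA with hA' | hA'
    · exact base1 (.t h hd) hA' hB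
    · rcases Set.mem_insert_iff.1 hB with hB' | hB'
      · exact base2 (.t h hd) hB' hA
      · obtain ⟨w', h1, h2, h3⟩ := ih hA' hB'
        refine ⟨a :: w', .t h h1, ?_, h3.mono (List.sublist_cons_self _ _)⟩
        intro b
        rw [List.count_cons, List.count_cons, h2 b]
        omega
  | @b i j k x y S S' h hd1 hd2 ih1 ih2 =>
    rcases Set.mem_insert_iff.1 hA with hA' | hA'
    · exact base1 (.b h hd1 hd2) hA' hB
    · rcases Set.mem_insert_iff.1 hB with hB' | hB'
      · exact base2 (.b h hd1 hd2) hB' hA
      · rcases hA' with hA' | hA' <;> rcases hB' with hB' | hB'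
        · obtain ⟨w', h1, h2, h3⟩ := ih1 hA' hB'
          refine ⟨w' ++ y, .b h h1 hd2.toDer, ?_, h3.mono (List.sublist_append_left _ _)⟩
          intro b
          rw [List.count_append, List.count_append, h2 b]
          omega
        · obtain ⟨w1, g1, g2, g3⟩ := hd1.ins1 hA' hc N
          obtain ⟨w2, k1, k2, k3⟩ := hd2.ins1 hB' hc' M
          refine ⟨w1 ++ w2, .b h g1 k1, ?_, Or.inl (g3.append k3)⟩
          intro b
          rw [List.count_append, List.count_append, g2 b, k2 b]
          omega
        · obtain ⟨w1, g1, g2, g3⟩ := hd1.ins1 hB' hc' M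
          obtain ⟨w2, k1, k2, k3⟩ := hd2.ins1 hA' hc N
          refine ⟨w1 ++ w2, .b h g1 k1, ?_, Or.inr (Or.inl (g3.append k3))⟩
          intro b
          rw [List.count_append, List.count_append, g2 b, k2 b]
          omega
        · obtain ⟨w', h1, h2, h3⟩ := ih2 hA' hB'
          refine ⟨x ++ w', .b h hd1.toDer h1, ?_, h3.mono (List.sublist_append_right _ _)⟩
          intro b
          rw [List.count_append, List.count_append, h2 b]
          omega

end Main

end Pool.Agent.W650.Fl
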