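import Pool.Agent.Helper79.Comap
import Pool.Agent.W650.FlTree

set_option autoImplicit false

/-!
Short loops in the derivations of a context-free grammar.
-/

namespace Pool.Agent.W650.Fl

open Pool.Agent.Helper79.Trans

/-- The binary system of a grammar: labels are strings of symbols. -/
def sysOf {T : Type} (g : ContextFreeGrammar T) : Sys (List (Symbol T g.NT)) T where
  E α := α = []
  Tm α a β := α = Symbol.terminal a :: β
  Bn α β γ := ∃ r ∈ g.rules, α = Symbol.nonterminal r.input :: γ ∧ β = r.output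

theorem der_of_yld {T : Type} {g : ContextFreeGrammar T} {α : List (Symbol T g.NT)} {w : List T}
    (h : Yld g α w) : Der (sysOf g) α w := by
  induction h with
  | nil => exact .e rfl
  | term t α w _ ih => exact .t rfl ih
  | node r α w₁ w₂ hr _ _ ih1 ih2 => exact .b ⟨r, hr, rfl, rfl⟩ ih1 ih2

theorem derives_of_der {T : Type} {g : ContextFreeGrammar T} {α : List (Symbol T g.NT)}
    {w : List T} (h : Der (sysOf g) α w) : g.Derives α (w.map Symbol.terminal) := by
  induction h with
  | e h =>
    have h' : _ = [] := h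
    subst h'
    exact Relation.ReflTransGen.refl
  | @t i a j w h _ ih =>
    have h' : i = Symbol.terminal a :: j := h
    subst h'
    simpa using ih.append_left [Symbol.terminal a]
  | @b i j k u v h _ _ ih1 ih2 =>
    obtain ⟨r, hr, h1, h2⟩ := h
    subst h1 h2
    have h3 : g.Produces [Symbol.nonterminal r.input] r.output :=
      ⟨r, hr, ContextFreeRule.Rewrites.input_output⟩
    have h4 : g.Derives [Symbol.nonterminal r.input] (u.map Symbol.terminal) :=
      h3.trans_derives ih1
    have := Pool.Agent.Helper79.CFG.derives_append (g := g) h4 ih2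
    simpa using this

/-- Every word of a context-free language is, up to the order of letters, a short word together
with short loops; any two of the loops can be inserted any number of times. -/
theorem pump_pack {T : Type} [DecidableEq T] (L : Language T) (hL : L.IsContextFree) :
    ∃ K : ℕ, ∀ w ∈ L, ∃ (P : Set (List T × List T)) (w0 : List T) (ps : List (List T × List T)),
      w0.length ≤ K ∧ (∀ p ∈ ps, p ∈ P ∧ p.1.length + p.2.length ≤ K) ∧
      (∀ a, w.count a = w0.count a + (ps.map fun p => p.1.count a + p.2.count a).sum) ∧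
      ∀ p ∈ P, ∀ q ∈ P, ∀ N M, ∃ w' ∈ L, (∀ a, w'.count a = w.count a +
        N * (p.1.count a + p.2.count a) + M * (q.1.count a + q.2.count a)) ∧
        Pat p.1 p.2 q.1 q.2 N M w' := by
  classical
  obtain ⟨g, rfl⟩ := hL
  let U : Set (List (Symbol T g.NT)) := (Suf g : Set (List (Symbol T g.NT)))
  have hU : U.Finite := Finset.finite_toSet _
  have ht : ∀ i a j, (sysOf g).Tm i a j → i ∈ U → j ∈ U := by
    intro i a j h hi
    have h' : i = Symbol.terminal a :: j := h
    subst h'
    exact Suf_tail hi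
  have hb : ∀ i j k, (sysOf g).Bn i j k → i ∈ U → j ∈ U ∧ k ∈ U := by
    rintro i j k ⟨r, hr, h1, h2⟩ hi
    subst h1 h2
    exact ⟨Suf_out hr, Suf_tail hi⟩
  refine ⟨2 * 2 ^ U.ncard, fun w hw => ?_⟩
  have hd : Der (sysOf g) [Symbol.nonterminal g.initial] w := der_of_yld (yld_of_derives hw)
  obtain ⟨S, hS⟩ := hd.toDS
  obtain ⟨w0, ps, h1, h2, h3⟩ := hS.decomp U hU ht hb (Suf_init g)
  have hl := h1.len U hU ht hb (Suf_init g)
  refine ⟨{p | ∃ A ∈ S, Ctx (sysOf g) A A p.1 p.2}, w0, ps.map Prod.snd, ?_, ?_, ?_, ?_⟩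
  · simp only [Set.diff_empty] at hl
    omega
  · intro p hp
    obtain ⟨q, hq, rfl⟩ := List.mem_map.1 hp
    obtain ⟨g1, g2, g3⟩ := h2 q hq
    exact ⟨⟨q.1, g1, g2⟩, g3⟩
  · intro a
    rw [h3 a]
    simp [tot, Function.comp_def]
  · rintro p ⟨A, hA, hc⟩ q ⟨B, hB, hc'⟩ N M
    obtain ⟨w', k1, k2, k3⟩ := hS.ins2 hA hB hc hc' N M
    exact ⟨w', derives_of_der k1, k2, k3⟩

end Pool.Agent.W650.Fl
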