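import Pool.Agent.Helper79.Comap
import Pool.Agent.Helper336.CF

set_option autoImplicit false

/-!
Context-free languages used for the sections: sorted words, counter languages.
-/

namespace Pool.Agent.W650.Fl

open Pool.Agent.Helper79.CFG Pool.Agent.Helper79.Trans

section Sorted

variable {n : ℕ} (r : Fin (n + 1) → Fin (n + 1))

/-- The automaton of the words with increasing ranks. -/
def sortD : DFA (Fin (n + 1)) (Option (Fin (n + 1))) where
  step q a := match q with
    | none => none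
    | some b => if b ≤ r a then some (r a) else none
  start := some 0
  accept := {q | q ≠ none}

theorem sortD_none (w : List (Fin (n + 1))) : (sortD r).evalFrom none w = none := by
  induction w with
  | nil => rfl
  | cons a w ih => rw [DFA.evalFrom_cons]; exact ih

theorem sortD_some (w : List (Fin (n + 1))) (b : Fin (n + 1)) :
    (sortD r).evalFrom (some b) w ≠ none ↔
      (∀ a ∈ w, b ≤ r a) ∧ w.Pairwise (fun x y => r x ≤ r y) := by
  induction w generalizing b with
  | nil => simp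
  | cons a w ih =>
    rw [DFA.evalFrom_cons]
    have hst : (sortD r).step (some b) a = if b ≤ r a then some (r a) else none := rfl
    rw [hst]
    by_cases h : b ≤ r a
    · rw [if_pos h, ih, List.pairwise_cons]
      constructor
      · rintro ⟨h1, h2⟩
        refine ⟨?_, h1, h2⟩
        intro c hc
        rcases List.mem_cons.1 hc with rfl | hc
        · exact h
        · exact h.trans (h1 c hc)
      · rintro ⟨-, h1, h2⟩
        exact ⟨h1, h2⟩
    · rw [if_neg h, sortD_none]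
      constructor
      · intro h'
        exact absurd rfl h'
      · rintro ⟨h1, -⟩
        exact absurd (h1 a List.mem_cons_self) h

theorem mem_sortD (w : List (Fin (n + 1))) : w ∈ (sortD r).accepts ↔
    w.Pairwise (fun x y => r x ≤ r y) := by
  rw [DFA.mem_accepts, DFA.eval]
  change (sortD r).evalFrom (some 0) w ≠ none ↔ _
  rw [sortD_some]
  constructor
  · exact fun h => h.2
  · exact fun h => ⟨fun a _ => Fin.zero_le _, h⟩

/-- The sorted words of a context-free language. -/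
theorem cf_sorted (L : Language (Fin (n + 1))) (hL : L.IsContextFree) :
    Language.IsContextFree ({w | w ∈ L ∧ w.Pairwise (fun x y => r x ≤ r y)} :
      Language (Fin (n + 1))) := by
  obtain ⟨g, rfl⟩ := hL
  have h := isContextFree_comap_inter (fun a : Fin (n + 1) => [a]) (sortD r) g
  have e : ({w | w ∈ g.language ∧ w.Pairwise (fun x y => r x ≤ r y)} :
      Language (Fin (n + 1))) = {w | w.flatMap (fun a : Fin (n + 1) => [a]) ∈ g.language ∧
        w ∈ (sortD r).accepts} := by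
    ext w
    have h1 : w.flatMap (fun a : Fin (n + 1) => [a]) = w := by simp
    change (w ∈ g.language ∧ _) ↔ (w.flatMap (fun a : Fin (n + 1) => [a]) ∈ g.language ∧
      w ∈ (sortD r).accepts)
    rw [mem_sortD, h1]
  rw [e]
  exact h

end Sorted

section Counter

variable {T : Type} [Fintype T] (Q : List T → ℤ → Prop)

open Classical in
/-- The rules of a counter grammar. -/
noncomputable def cRules : Finset (ContextFreeRule T ℤ) :=
  insert ⟨0, []⟩
    ((((Finset.Icc (-2) 2 : Finset ℤ) ×ˢ (Finset.Icc (-2) 2 : Finset ℤ)).image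
      (fun p => (⟨p.1 + p.2, [Symbol.nonterminal p.1, Symbol.nonterminal p.2]⟩ :
        ContextFreeRule T ℤ))) ∪
    (((Finset.Icc (-2) 2 : Finset ℤ) ×ˢ (Finset.univ : Finset T)).filter
      (fun p => Q [p.2] p.1)).image
      (fun p => (⟨p.1, [Symbol.terminal p.2]⟩ : ContextFreeRule T ℤ)))

theorem mem_cRules (r : ContextFreeRule T ℤ) : r ∈ cRules Q ↔ r = ⟨0, []⟩ ∨
    (∃ j k : ℤ, (-2 ≤ j ∧ j ≤ 2) ∧ (-2 ≤ k ∧ k ≤ 2) ∧
      r = ⟨j + k, [Symbol.nonterminal j, Symbol.nonterminal k]⟩) ∨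
    (∃ (j : ℤ) (t : T), (-2 ≤ j ∧ j ≤ 2) ∧ Q [t] j ∧ r = ⟨j, [Symbol.terminal t]⟩) := by
  classical
  simp only [cRules, Finset.mem_insert, Finset.mem_union, Finset.mem_image,
    Finset.mem_filter, Finset.mem_product, Finset.mem_Icc, Finset.mem_univ]
  constructor
  · rintro (h | ⟨⟨j, k⟩, ⟨h1, h2⟩, rfl⟩ | ⟨⟨j, t⟩, ⟨⟨h1, -⟩, h2⟩, rfl⟩)
    · exact Or.inl h
    · exact Or.inr (Or.inl ⟨j, k, h1, h2, rfl⟩)
    · exact Or.inr (Or.inr ⟨j, t, h1, h2, rfl⟩)
  · rintro (h | ⟨j, k, h1, h2, rfl⟩ | ⟨j, t, h1, h2, rfl⟩)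
    · exact Or.inl h
    · exact Or.inr (Or.inl ⟨(j, k), ⟨h1, h2⟩, rfl⟩)
    · exact Or.inr (Or.inr ⟨(j, t), ⟨⟨h1, trivial⟩, h2⟩, rfl⟩)

/-- The counter grammar. -/
noncomputable def cGram : ContextFreeGrammar T := ⟨ℤ, 0, cRules Q⟩

variable (q0 : ∀ s, Q [] s ↔ s = 0)
  (q1 : ∀ t v s, Q (t :: v) s → ∃ c, -2 ≤ c ∧ c ≤ 2 ∧ Q [t] c ∧ Q v (s - c))
  (q2 : ∀ u v j k, Q u j → Q v k → Q (u ++ v) (j + k))

include q0 q1 q2

omit [Fintype T] in
theorem split_pos {s : ℤ} (hs0 : 0 ≤ s) (hs : s ≤ 2) : ∀ (v u : List T) (j : ℤ), u ≠ [] →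
    v ≠ [] → j ≤ 2 → Q u j → Q v (s - j) → ∃ u' v' j', u' ≠ [] ∧ v' ≠ [] ∧ u' ++ v' = u ++ v ∧
      Q u' j' ∧ Q v' (s - j') ∧ -2 ≤ j' ∧ j' ≤ 2 ∧ -2 ≤ s - j' ∧ s - j' ≤ 2 := by
  intro v
  induction v with
  | nil => intro u j _ h; exact absurd rfl h
  | cons t v ih =>
    intro u j hu hv hj hQu hQv
    by_cases hc : s - 2 ≤ j
    · exact ⟨u, t :: v, j, hu, hv, rfl, hQu, hQv, by omega, by omega, by omega, by omega⟩
    · obtain ⟨c, hc1, hc2, h1, h2⟩ := q1 t v _ hQv
      have hv' : v ≠ [] := by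
        rintro rfl
        have := (q0 _).1 h2
        omega
      obtain ⟨u', v', j', g1, g2, g3, g4⟩ := ih (u ++ [t]) (j + c) (by simp) hv' (by omega)
        (q2 _ _ _ _ hQu h1) (by convert h2 using 1; ring)
      exact ⟨u', v', j', g1, g2, by rw [g3]; simp, g4⟩

omit [Fintype T] in
theorem split_neg {s : ℤ} (hs0 : s ≤ 0) (hs : -2 ≤ s) : ∀ (v u : List T) (j : ℤ), u ≠ [] →
    v ≠ [] → -2 ≤ j → Q u j → Q v (s - j) → ∃ u' v' j', u' ≠ [] ∧ v' ≠ [] ∧ u' ++ v' = u ++ v ∧
      Q u' j' ∧ Q v' (s - j') ∧ -2 ≤ j' ∧ j' ≤ 2 ∧ -2 ≤ s - j' ∧ s - j' ≤ 2 := by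
  intro v
  induction v with
  | nil => intro u j _ h; exact absurd rfl h
  | cons t v ih =>
    intro u j hu hv hj hQu hQv
    by_cases hc : j ≤ s + 2
    · exact ⟨u, t :: v, j, hu, hv, rfl, hQu, hQv, by omega, by omega, by omega, by omega⟩
    · obtain ⟨c, hc1, hc2, h1, h2⟩ := q1 t v _ hQv
      have hv' : v ≠ [] := by
        rintro rfl
        have := (q0 _).1 h2
        omega
      obtain ⟨u', v', j', g1, g2, g3, g4⟩ := ih (u ++ [t]) (j + c) (by simp) hv' (by omega)
        (q2 _ _ _ _ hQu h1) (by convert h2 using 1; ring)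
      exact ⟨u', v', j', g1, g2, by rw [g3]; simp, g4⟩

theorem gen_counter : ∀ (n : ℕ) (w : List T), w.length ≤ n → ∀ s : ℤ, -2 ≤ s → s ≤ 2 → Q w s →
    w ∈ Gen (cGram Q) s := by
  classical
  intro n
  induction n with
  | zero =>
    intro w hw s h1 h2 hQ
    have hw' : w = [] := List.length_eq_zero_iff.1 (by omega)
    subst hw'
    have := (q0 _).1 hQ
    subst this
    exact gen_of_rule (cGram Q) ⟨(0 : ℤ), []⟩ ((mem_cRules Q _).2 (Or.inl rfl)) [] rfl
  | succ n ih =>
    intro w hw s h1 h2 hQ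
    match w, hw, hQ with
    | [], _, hQ => exact ih [] (by simp) s h1 h2 hQ
    | [t], _, hQ =>
      exact gen_of_rule (cGram Q) ⟨s, [Symbol.terminal t]⟩
        ((mem_cRules Q _).2 (Or.inr (Or.inr ⟨s, t, ⟨h1, h2⟩, hQ, rfl⟩))) [t] ⟨[], rfl, rfl⟩
    | t :: t' :: v, hw, hQ =>
      obtain ⟨c, hc1, hc2, hQt, hQv⟩ := q1 t (t' :: v) s hQ
      have hsp : ∃ u' v' j', u' ≠ [] ∧ v' ≠ [] ∧ u' ++ v' = [t] ++ t' :: v ∧
          Q u' j' ∧ Q v' (s - j') ∧ -2 ≤ j' ∧ j' ≤ 2 ∧ -2 ≤ s - j' ∧ s - j' ≤ 2 := by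
        rcases le_total 0 s with h0 | h0
        · exact split_pos Q q0 q1 q2 h0 h2 (t' :: v) [t] c (by simp) (by simp) hc2 hQt hQv
        · exact split_neg Q q0 q1 q2 h0 h1 (t' :: v) [t] c (by simp) (by simp) hc1 hQt hQv
      obtain ⟨u', v', j', g1, g2, g3, g4, g5, g6, g7, g8, g9⟩ := hsp
      have hl := congrArg List.length g3
      simp only [List.length_append, List.length_cons, List.length_nil] at hl hw
      have l1 : 0 < u'.length := List.length_pos_iff.2 g1
      have l2 : 0 < v'.length := List.length_pos_iff.2 g2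
      have k1 := ih u' (by omega) j' g6 g7 g4
      have k2 := ih v' (by omega) (s - j') g8 g9 g5
      have hr : (⟨j' + (s - j'), [Symbol.nonterminal j', Symbol.nonterminal (s - j')]⟩ :
          ContextFreeRule T ℤ) ∈ cRules Q :=
        (mem_cRules Q _).2 (Or.inr (Or.inl ⟨j', s - j', ⟨g6, g7⟩, ⟨g8, g9⟩, rfl⟩))
      have := gen_of_rule (cGram Q) ⟨j' + (s - j'), [Symbol.nonterminal j',
        Symbol.nonterminal (s - j')]⟩ hr (u' ++ v') ⟨u', v', rfl, k1, v', [], by simp, k2, rfl⟩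
      rw [g3] at this
      have hs' : j' + (s - j') = s := by ring
      simpa [hs'] using this

/-- Counter languages are context-free. -/
theorem cf_counter : Language.IsContextFree ({w | Q w 0} : Language T) := by
  classical
  refine ⟨cGram Q, ?_⟩
  ext w
  refine language_eq (cGram Q) (fun s => {w | Q w s}) ?_ ?_ w
  · intro r hr w hw
    have hr' := (mem_cRules Q r).1 hr
    rcases hr' with rfl | ⟨j, k, -, -, rfl⟩ | ⟨j, t, -, hQ, rfl⟩
    · have hw' : w = [] := hw
      subst hw'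
      exact (q0 _).2 rfl
    · obtain ⟨u, v, rfl, hu, v1, v2, rfl, hv, hv2⟩ := hw
      have hv2' : v2 = [] := hv2
      subst hv2'
      rw [List.append_nil]
      exact q2 _ _ _ _ hu hv
    · obtain ⟨v, rfl, hv⟩ := hw
      have hv' : v = [] := hv
      subst hv'
      exact hQ
  · intro w hw
    exact gen_counter Q q0 q1 q2 w.length w le_rfl 0 (by norm_num) (by norm_num) hw

end Counter

end Pool.Agent.W650.Fl
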