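import Mathlib

set_option autoImplicit false

namespace Pool.Agent.W650.TurTwo

open Finset
open scoped Classical

variable {n : ℕ}

/-- indicator of an ordered triple of distinct vertices that is not an edge -/
noncomputable def f (T : Finset (Finset (Fin n))) (x y z : Fin n) : ℝ :=
  if x ≠ y ∧ y ≠ z ∧ x ≠ z ∧ ({x, y, z} : Finset (Fin n)) ∉ T then 1 else 0

theorem f_nonneg (T : Finset (Finset (Fin n))) (x y z : Fin n) : 0 ≤ f T x y z := by
  unfold f; split_ifs <;> norm_num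

theorem f_le_one (T : Finset (Finset (Fin n))) (x y z : Fin n) : f T x y z ≤ 1 := by
  unfold f; split_ifs <;> norm_num

theorem f_01 (T : Finset (Finset (Fin n))) (x y z : Fin n) : f T x y z = 0 ∨ f T x y z = 1 := by
  unfold f; split_ifs <;> simp

theorem f_swap12 (T : Finset (Finset (Fin n))) (x y z : Fin n) : f T y x z = f T x y z := by
  have h : ({y, x, z} : Finset (Fin n)) = {x, y, z} := by
    ext t; simp only [mem_insert, mem_singleton]; tauto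
  unfold f
  rw [h]
  congr 1
  apply propext
  constructor
  · rintro ⟨a, b, c, d⟩; exact ⟨fun e => a e.symm, c, b, d⟩
  · rintro ⟨a, b, c, d⟩; exact ⟨fun e => a e.symm, c, b, d⟩

theorem f_swap23 (T : Finset (Finset (Fin n))) (x y z : Fin n) : f T x z y = f T x y z := by
  have h : ({x, z, y} : Finset (Fin n)) = {x, y, z} := by
    ext t; simp only [mem_insert, mem_singleton]; tauto
  unfold f
  rw [h]
  congr 1
  apply propext
  constructor
  · rintro ⟨a, b, c, d⟩; exact ⟨c, fun e => b e.symm, a, d⟩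
  · rintro ⟨a, b, c, d⟩; exact ⟨c, fun e => b e.symm, a, d⟩

theorem f_one {T : Finset (Finset (Fin n))} {x y z : Fin n} (h : f T x y z = 1) :
    x ≠ y ∧ y ≠ z ∧ x ≠ z ∧ ({x, y, z} : Finset (Fin n)) ∉ T := by
  unfold f at h
  by_contra hc
  rw [if_neg hc] at h
  norm_num at h

/-- the key point: the two kinds of pairs exclude each other -/
theorem key (T : Finset (Finset (Fin n)))
    (hT : ∀ S : Finset (Fin n), S.card = 4 → ∃ e ∈ T, e ⊆ S) (h3 : ∀ e ∈ T, e.card = 3)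
    (x y z w : Fin n) :
    f T x y z * f T x y w + f T z w x * f T z w y ≤ 1 := by
  rcases f_01 T x y z with h1 | h1
  · rw [h1, zero_mul, zero_add]
    exact mul_le_one₀ (f_le_one _ _ _ _) (f_nonneg _ _ _ _) (f_le_one _ _ _ _)
  rcases f_01 T x y w with h2 | h2
  · rw [h2, mul_zero, zero_add]
    exact mul_le_one₀ (f_le_one _ _ _ _) (f_nonneg _ _ _ _) (f_le_one _ _ _ _)
  rcases f_01 T z w x with h4 | h4
  · rw [h1, h2, h4]; norm_num
  rcases f_01 T z w y with h5 | h5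
  · rw [h1, h2, h5]; norm_num
  exfalso
  obtain ⟨a1, a2, a3, a4⟩ := f_one h1
  obtain ⟨b1, b2, b3, b4⟩ := f_one h2
  obtain ⟨c1, c2, c3, c4⟩ := f_one h4
  obtain ⟨d1, d2, d3, d4⟩ := f_one h5
  have hcard : ({x, y, z, w} : Finset (Fin n)).card = 4 := by
    rw [card_insert_of_notMem, card_insert_of_notMem, card_insert_of_notMem, card_singleton]
    · simpa using c1
    · simp only [mem_insert, mem_singleton]; tauto
    · simp only [mem_insert, mem_singleton]; tauto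
  obtain ⟨e, he, hes⟩ := hT _ hcard
  have hec := h3 e he
  -- some vertex of the four is missing
  have hmiss : ∃ v ∈ ({x, y, z, w} : Finset (Fin n)), v ∉ e := by
    by_contra hcon
    push Not at hcon
    have : ({x, y, z, w} : Finset (Fin n)) ⊆ e := fun v hv => hcon v hv
    have := card_le_card this
    omega
  obtain ⟨v, hv, hve⟩ := hmiss
  have hin : ∀ t ∈ e, t ≠ v ∧ (t = x ∨ t = y ∨ t = z ∨ t = w) := by
    intro t ht
    have := hes ht
    simp only [mem_insert, mem_singleton] at this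
    exact ⟨fun h => hve (h ▸ ht), this⟩
  have fin : ∀ a b c : Fin n, ({a, b, c} : Finset (Fin n)) ∉ T →
      (∀ t ∈ e, t = a ∨ t = b ∨ t = c) → False := by
    intro a b c hab hall
    apply hab
    have : e = {a, b, c} := by
      apply eq_of_subset_of_card_le
      · intro t ht
        simp only [mem_insert, mem_singleton]
        exact hall t ht
      · rw [hec]; exact card_le_three
    rw [← this]; exact he
  simp only [mem_insert, mem_singleton] at hv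
  rcases hv with hv | hv | hv | hv
  · refine fin _ _ _ d4 fun t ht => ?_
    obtain ⟨h1, h2⟩ := hin t ht
    rw [hv] at h1
    tauto
  · refine fin _ _ _ c4 fun t ht => ?_
    obtain ⟨h1, h2⟩ := hin t ht
    rw [hv] at h1
    tauto
  · refine fin _ _ _ b4 fun t ht => ?_
    obtain ⟨h1, h2⟩ := hin t ht
    rw [hv] at h1
    tauto
  · refine fin _ _ _ a4 fun t ht => ?_
    obtain ⟨h1, h2⟩ := hin t ht
    rw [hv] at h1
    tauto

/-- pairs in `A`, third vertex in `B` -/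
noncomputable def s (T : Finset (Finset (Fin n))) (A B : Finset (Fin n)) : ℝ :=
  ∑ x ∈ A, ∑ y ∈ A, ∑ z ∈ B, f T x y z

noncomputable def s2 (T : Finset (Finset (Fin n))) (A B : Finset (Fin n)) : ℝ :=
  ∑ x ∈ A, ∑ y ∈ A, (∑ z ∈ B, f T x y z) ^ 2

theorem s_sq_le (T : Finset (Finset (Fin n))) (A B : Finset (Fin n)) :
    s T A B ^ 2 ≤ (A.card : ℝ) ^ 2 * s2 T A B := by
  unfold s s2
  have h1 : (∑ x ∈ A, ∑ y ∈ A, ∑ z ∈ B, f T x y z) ^ 2 ≤
      (A.card : ℝ) * ∑ x ∈ A, (∑ y ∈ A, ∑ z ∈ B, f T x y z) ^ 2 := by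
    have := sq_sum_le_card_mul_sum_sq (s := A) (f := fun x => ∑ y ∈ A, ∑ z ∈ B, f T x y z)
    exact this
  have h2 : ∑ x ∈ A, (∑ y ∈ A, ∑ z ∈ B, f T x y z) ^ 2 ≤
      ∑ x ∈ A, (A.card : ℝ) * ∑ y ∈ A, (∑ z ∈ B, f T x y z) ^ 2 := by
    apply sum_le_sum
    intro x _
    exact sq_sum_le_card_mul_sum_sq (s := A) (f := fun y => ∑ z ∈ B, f T x y z)
  rw [← mul_sum] at h2
  calc _ ≤ _ := h1
    _ ≤ (A.card : ℝ) * ((A.card : ℝ) * ∑ x ∈ A, ∑ y ∈ A, (∑ z ∈ B, f T x y z) ^ 2) :=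
        mul_le_mul_of_nonneg_left h2 (Nat.cast_nonneg _)
    _ = _ := by ring

theorem s2_add_le (T : Finset (Finset (Fin n)))
    (hT : ∀ S : Finset (Fin n), S.card = 4 → ∃ e ∈ T, e ⊆ S) (h3 : ∀ e ∈ T, e.card = 3)
    (A B : Finset (Fin n)) :
    s2 T A B + s2 T B A ≤ (A.card : ℝ) ^ 2 * (B.card : ℝ) ^ 2 := by
  have e1 : s2 T A B = ∑ x ∈ A, ∑ y ∈ A, ∑ z ∈ B, ∑ w ∈ B, f T x y z * f T x y w := by
    unfold s2
    refine sum_congr rfl fun x _ => sum_congr rfl fun y _ => ?_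
    rw [sq, sum_mul_sum]
  have e2 : s2 T B A = ∑ x ∈ A, ∑ y ∈ A, ∑ z ∈ B, ∑ w ∈ B, f T z w x * f T z w y := by
    unfold s2
    have : ∀ z w : Fin n, (∑ x ∈ A, f T z w x) ^ 2 = ∑ x ∈ A, ∑ y ∈ A, f T z w x * f T z w y := by
      intro z w; rw [sq, sum_mul_sum]
    simp only [this]
    calc ∑ z ∈ B, ∑ w ∈ B, ∑ x ∈ A, ∑ y ∈ A, f T z w x * f T z w y
        = ∑ z ∈ B, ∑ x ∈ A, ∑ w ∈ B, ∑ y ∈ A, f T z w x * f T z w y := by
          refine sum_congr rfl fun z _ => ?_; rw [sum_comm]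
      _ = ∑ x ∈ A, ∑ z ∈ B, ∑ w ∈ B, ∑ y ∈ A, f T z w x * f T z w y := by rw [sum_comm]
      _ = ∑ x ∈ A, ∑ z ∈ B, ∑ y ∈ A, ∑ w ∈ B, f T z w x * f T z w y := by
          refine sum_congr rfl fun x _ => sum_congr rfl fun z _ => ?_; rw [sum_comm]
      _ = ∑ x ∈ A, ∑ y ∈ A, ∑ z ∈ B, ∑ w ∈ B, f T z w x * f T z w y := by
          refine sum_congr rfl fun x _ => ?_; rw [sum_comm]
  rw [e1, e2]
  simp only [← sum_add_distrib]
  calc ∑ x ∈ A, ∑ y ∈ A, ∑ z ∈ B, ∑ w ∈ B, (f T x y z * f T x y w + f T z w x * f T z w y)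
      ≤ ∑ x ∈ A, ∑ y ∈ A, ∑ z ∈ B, ∑ w ∈ B, (1 : ℝ) :=
        sum_le_sum fun x _ => sum_le_sum fun y _ => sum_le_sum fun z _ => sum_le_sum fun w _ =>
          key T hT h3 x y z w
    _ = _ := by simp only [sum_const, nsmul_eq_mul, mul_one]; ring

/-- ordered count of non-edges -/
theorem six (T : Finset (Finset (Fin n))) (h3 : ∀ e ∈ T, e.card = 3) :
    ∑ x : Fin n, ∑ y : Fin n, ∑ z : Fin n, f T x y z = 6 * ((n.choose 3 : ℝ) - T.card) := by
  set W : Finset (Finset (Fin n)) := (powersetCard 3 (univ : Finset (Fin n))) \ T with hW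
  have hWc : (W.card : ℝ) = (n.choose 3 : ℝ) - T.card := by
    have hsub : T ⊆ powersetCard 3 (univ : Finset (Fin n)) := fun e he =>
      mem_powersetCard.2 ⟨subset_univ _, h3 e he⟩
    have h1 := card_sdiff_add_card_eq_card hsub
    rw [card_powersetCard, card_univ, Fintype.card_fin] at h1
    rw [hW]
    have h2 : ((powersetCard 3 (univ : Finset (Fin n)) \ T).card : ℝ) + (T.card : ℝ) =
        (n.choose 3 : ℝ) := by exact_mod_cast h1
    linarith
  rw [← hWc]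
  set P : Finset (Fin n × Fin n × Fin n) := univ.filter fun t =>
    t.1 ≠ t.2.1 ∧ t.2.1 ≠ t.2.2 ∧ t.1 ≠ t.2.2 ∧ ({t.1, t.2.1, t.2.2} : Finset (Fin n)) ∉ T with hP
  have e1 : ∑ x : Fin n, ∑ y : Fin n, ∑ z : Fin n, f T x y z = (P.card : ℝ) := by
    rw [hP, card_filter]
    push_cast
    rw [← univ_product_univ, sum_product]
    refine sum_congr rfl fun x _ => ?_
    rw [← univ_product_univ, sum_product]
    rfl
  rw [e1]
  have hmaps : ∀ t ∈ P, ({t.1, t.2.1, t.2.2} : Finset (Fin n)) ∈ W := by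
    intro t ht
    rw [hP, mem_filter] at ht
    obtain ⟨-, a, b, c, d⟩ := ht
    rw [hW, mem_sdiff, mem_powersetCard]
    refine ⟨⟨subset_univ _, ?_⟩, d⟩
    rw [card_eq_three]
    exact ⟨_, _, _, a, c, b, rfl⟩
  have h2 := card_eq_sum_card_fiberwise hmaps
  have h3' : ∀ S ∈ W, (P.filter fun t => ({t.1, t.2.1, t.2.2} : Finset (Fin n)) = S).card = 6 := by
    intro S hS
    rw [hW, mem_sdiff, mem_powersetCard] at hS
    obtain ⟨⟨-, hc⟩, hST⟩ := hS
    obtain ⟨a, b, c, hab, hac, hbc, rfl⟩ := card_eq_three.1 hc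
    have : (P.filter fun t => ({t.1, t.2.1, t.2.2} : Finset (Fin n)) = {a, b, c}) =
        {(a, b, c), (a, c, b), (b, a, c), (b, c, a), (c, a, b), (c, b, a)} := by
      ext ⟨x, y, z⟩
      simp only [hP, mem_filter, mem_univ, true_and, mem_insert, mem_singleton, Prod.mk.injEq]
      constructor
      · rintro ⟨⟨h1, h2, h3, h4⟩, h5⟩
        have hx : x ∈ ({a, b, c} : Finset (Fin n)) := by rw [← h5]; simp
        have hy : y ∈ ({a, b, c} : Finset (Fin n)) := by rw [← h5]; simp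
        have hz : z ∈ ({a, b, c} : Finset (Fin n)) := by rw [← h5]; simp
        simp only [mem_insert, mem_singleton] at hx hy hz
        rcases hx with rfl | rfl | rfl <;> rcases hy with rfl | rfl | rfl <;>
          rcases hz with rfl | rfl | rfl <;> simp_all
      · have perm : ∀ S : Finset (Fin n), S = {a, b, c} → S ∉ T := fun S h => h ▸ hST
        rintro (⟨rfl, rfl, rfl⟩ | ⟨rfl, rfl, rfl⟩ | ⟨rfl, rfl, rfl⟩ | ⟨rfl, rfl, rfl⟩ |
          ⟨rfl, rfl, rfl⟩ | ⟨rfl, rfl, rfl⟩)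
        all_goals
          refine ⟨⟨by tauto, by tauto, by tauto, ?_⟩, ?_⟩
          · apply perm; ext t; simp only [mem_insert, mem_singleton]; try tauto
          · ext t; simp only [mem_insert, mem_singleton]; try tauto
    rw [this]
    rw [card_insert_of_notMem, card_insert_of_notMem, card_insert_of_notMem, card_insert_of_notMem,
      card_insert_of_notMem, card_singleton]
    all_goals simp only [mem_insert, mem_singleton, Prod.mk.injEq]; tauto
  rw [h2, sum_congr rfl h3', sum_const, smul_eq_mul]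
  push_cast; ring

/-- decomposition of the count -/
theorem split (T : Finset (Finset (Fin n))) (A : Finset (Fin n)) :
    ∑ x : Fin n, ∑ y : Fin n, ∑ z : Fin n, f T x y z =
      s T A A + 3 * s T A Aᶜ + 3 * s T Aᶜ A + s T Aᶜ Aᶜ := by
  have hs : ∀ g : Fin n → ℝ, ∑ x, g x = ∑ x ∈ A, g x + ∑ x ∈ Aᶜ, g x := fun g =>
    (sum_add_sum_compl A g).symm
  simp only [hs, sum_add_distrib]
  unfold s
  have t1 : ∑ x ∈ A, ∑ y ∈ Aᶜ, ∑ z ∈ A, f T x y z = ∑ x ∈ A, ∑ y ∈ A, ∑ z ∈ Aᶜ, f T x y z := by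
    refine sum_congr rfl fun x _ => ?_
    rw [sum_comm]
    exact sum_congr rfl fun y _ => sum_congr rfl fun z _ => f_swap23 _ _ _ _
  have t2 : ∑ x ∈ Aᶜ, ∑ y ∈ A, ∑ z ∈ A, f T x y z = ∑ x ∈ A, ∑ y ∈ A, ∑ z ∈ Aᶜ, f T x y z := by
    rw [sum_comm, ← t1]
    exact sum_congr rfl fun x _ => sum_congr rfl fun y _ => sum_congr rfl fun z _ => f_swap12 _ _ _ _
  have t3 : ∑ x ∈ Aᶜ, ∑ y ∈ A, ∑ z ∈ Aᶜ, f T x y z = ∑ x ∈ Aᶜ, ∑ y ∈ Aᶜ, ∑ z ∈ A, f T x y z := by
    refine sum_congr rfl fun x _ => ?_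
    rw [sum_comm]
    exact sum_congr rfl fun y _ => sum_congr rfl fun z _ => f_swap23 _ _ _ _
  have t4 : ∑ x ∈ A, ∑ y ∈ Aᶜ, ∑ z ∈ Aᶜ, f T x y z = ∑ x ∈ Aᶜ, ∑ y ∈ Aᶜ, ∑ z ∈ A, f T x y z := by
    rw [sum_comm, ← t3]
    exact sum_congr rfl fun x _ => sum_congr rfl fun y _ => sum_congr rfl fun z _ => f_swap12 _ _ _ _
  rw [t1, t2, t3, t4]
  ring

theorem s_nonneg (T : Finset (Finset (Fin n))) (A B : Finset (Fin n)) : 0 ≤ s T A B :=
  sum_nonneg fun x _ => sum_nonneg fun y _ => sum_nonneg fun z _ => f_nonneg _ _ _ _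

theorem s_clique (T : Finset (Finset (Fin n))) (A : Finset (Fin n))
    (hA : ∀ e : Finset (Fin n), e ⊆ A → e.card = 3 → e ∈ T) : s T A A = 0 := by
  unfold s
  refine sum_eq_zero fun x hx => sum_eq_zero fun y hy => sum_eq_zero fun z hz => ?_
  rcases f_01 T x y z with h | h
  · exact h
  · exfalso
    obtain ⟨a1, a2, a3, a4⟩ := f_one h
    apply a4
    apply hA
    · intro t ht
      simp only [mem_insert, mem_singleton] at ht
      rcases ht with rfl | rfl | rfl <;> assumption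
    · rw [card_eq_three]; exact ⟨_, _, _, a1, a3, a2, rfl⟩

/-- cross non-edges -/
theorem cross (T : Finset (Finset (Fin n)))
    (hT : ∀ S : Finset (Fin n), S.card = 4 → ∃ e ∈ T, e ⊆ S) (h3 : ∀ e ∈ T, e.card = 3)
    (A B : Finset (Fin n)) :
    s T A B + s T B A ≤ A.card * B.card * √((A.card : ℝ) ^ 2 + (B.card : ℝ) ^ 2) := by
  set a : ℝ := (A.card : ℝ) with ha
  set b : ℝ := (B.card : ℝ) with hb
  have ha0 : 0 ≤ a := Nat.cast_nonneg _
  have hb0 : 0 ≤ b := Nat.cast_nonneg _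
  have h1 := s_sq_le T A B
  have h2 := s_sq_le T B A
  have h4 := s2_add_le T hT h3 A B
  rw [← ha] at h1 h4
  rw [← hb] at h2 h4
  set p := s T A B with hp
  set q := s T B A with hq
  have hp0 : 0 ≤ p := s_nonneg _ _ _
  have hq0 : 0 ≤ q := s_nonneg _ _ _
  have h5 : b ^ 2 * p ^ 2 + a ^ 2 * q ^ 2 ≤ a ^ 4 * b ^ 4 := by
    have e1 : b ^ 2 * p ^ 2 ≤ b ^ 2 * (a ^ 2 * s2 T A B) := mul_le_mul_of_nonneg_left h1 (by positivity)
    have e2 : a ^ 2 * q ^ 2 ≤ a ^ 2 * (b ^ 2 * s2 T B A) := mul_le_mul_of_nonneg_left h2 (by positivity)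
    have e3 : a ^ 2 * b ^ 2 * (s2 T A B + s2 T B A) ≤ a ^ 2 * b ^ 2 * (a ^ 2 * b ^ 2) :=
      mul_le_mul_of_nonneg_left h4 (by positivity)
    nlinarith
  rcases eq_or_lt_of_le ha0 with h0 | hapos
  · have : A = ∅ := by
      rw [← card_eq_zero]
      have h9 : (A.card : ℝ) = 0 := by rw [← ha]; exact h0.symm
      exact_mod_cast h9
    have z1 : p = 0 := by rw [hp, this]; simp [s]
    have z2 : q = 0 := by rw [hq, this]; simp [s]
    rw [z1, z2, ← h0]; simp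
  rcases eq_or_lt_of_le hb0 with h0 | hbpos
  · have : B = ∅ := by
      rw [← card_eq_zero]
      have h9 : (B.card : ℝ) = 0 := by rw [← hb]; exact h0.symm
      exact_mod_cast h9
    have z1 : p = 0 := by rw [hp, this]; simp [s]
    have z2 : q = 0 := by rw [hq, this]; simp [s]
    rw [z1, z2, ← h0]; simp
  have h6 : (p + q) ^ 2 ≤ (a * b) ^ 2 * (a ^ 2 + b ^ 2) := by
    have hcs : (a * (b * p) + b * (a * q)) ^ 2 ≤ (a ^ 2 + b ^ 2) * ((b * p) ^ 2 + (a * q) ^ 2) := by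
      nlinarith [sq_nonneg (a * (a * q) - b * (b * p))]
    have h7 : (a * b) ^ 2 * (p + q) ^ 2 ≤ (a * b) ^ 2 * ((a * b) ^ 2 * (a ^ 2 + b ^ 2)) := by
      calc (a * b) ^ 2 * (p + q) ^ 2 = (a * (b * p) + b * (a * q)) ^ 2 := by ring
        _ ≤ _ := hcs
        _ = (a ^ 2 + b ^ 2) * (b ^ 2 * p ^ 2 + a ^ 2 * q ^ 2) := by ring
        _ ≤ (a ^ 2 + b ^ 2) * (a ^ 4 * b ^ 4) := mul_le_mul_of_nonneg_left h5 (by positivity)
        _ = _ := by ring
    exact le_of_mul_le_mul_left h7 (by positivity)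
  have h8 : p + q ≤ √((a * b) ^ 2 * (a ^ 2 + b ^ 2)) := Real.le_sqrt_of_sq_le h6
  rw [Real.sqrt_mul (by positivity), Real.sqrt_sq (by positivity)] at h8
  exact h8

theorem inner (T : Finset (Finset (Fin n)))
    (hT : ∀ S : Finset (Fin n), S.card = 4 → ∃ e ∈ T, e ⊆ S) (h3 : ∀ e ∈ T, e.card = 3)
    (B : Finset (Fin n)) : s T B B ≤ (B.card : ℝ) ^ 3 / √2 := by
  have h1 := s_sq_le T B B
  have h4 := s2_add_le T hT h3 B B
  set b : ℝ := (B.card : ℝ) with hb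
  have hb0 : 0 ≤ b := Nat.cast_nonneg _
  have h5 : s T B B ^ 2 ≤ (b ^ 3 / √2) ^ 2 := by
    rw [div_pow, Real.sq_sqrt (by norm_num)]
    nlinarith [sq_nonneg b]
  exact abs_le_of_sq_le_sq' h5 (by positivity) |>.2

theorem main (T : Finset (Finset (Fin n)))
    (hT : ∀ S : Finset (Fin n), S.card = 4 → ∃ e ∈ T, e ⊆ S) (h3 : ∀ e ∈ T, e.card = 3)
    (A : Finset (Fin n)) (hA : ∀ e : Finset (Fin n), e ⊆ A → e.card = 3 → e ∈ T) :
    (n.choose 3 : ℝ) - A.card * Aᶜ.card * √((A.card : ℝ) ^ 2 + (Aᶜ.card : ℝ) ^ 2) / 2 -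
      s T Aᶜ Aᶜ / 6 ≤ T.card := by
  have h1 := six T h3
  rw [split T A, s_clique T A hA] at h1
  have h2 := cross T hT h3 A Aᶜ
  linarith

theorem main1 (T : Finset (Finset (Fin n)))
    (hT : ∀ S : Finset (Fin n), S.card = 4 → ∃ e ∈ T, e ⊆ S) (h3 : ∀ e ∈ T, e.card = 3)
    (A : Finset (Fin n)) (hA : ∀ e : Finset (Fin n), e ⊆ A → e.card = 3 → e ∈ T) :
    (n.choose 3 : ℝ) - A.card * Aᶜ.card * √((A.card : ℝ) ^ 2 + (Aᶜ.card : ℝ) ^ 2) / 2 -
      (Aᶜ.card : ℝ) ^ 3 / (6 * √2) ≤ T.card := by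
  have h1 := main T hT h3 A hA
  have h2 := inner T hT h3 Aᶜ
  have h4 : (Aᶜ.card : ℝ) ^ 3 / (6 * √2) = ((Aᶜ.card : ℝ) ^ 3 / √2) / 6 := by
    rw [div_div, mul_comm]
  rw [h4]
  linarith

theorem main2 (T : Finset (Finset (Fin n)))
    (hT : ∀ S : Finset (Fin n), S.card = 4 → ∃ e ∈ T, e ⊆ S) (h3 : ∀ e ∈ T, e.card = 3)
    (A : Finset (Fin n)) (hA : ∀ e : Finset (Fin n), e ⊆ A → e.card = 3 → e ∈ T)
    (hB : ∀ e : Finset (Fin n), e ⊆ Aᶜ → e.card = 3 → e ∈ T) :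
    (n.choose 3 : ℝ) - A.card * Aᶜ.card * √((A.card : ℝ) ^ 2 + (Aᶜ.card : ℝ) ^ 2) / 2 ≤
      T.card := by
  have h1 := main T hT h3 A hA
  rw [s_clique T Aᶜ hB] at h1
  linarith

/-- the elementary function -/
theorem mono (m a b s0 : ℝ) (ha : 0 ≤ a) (hb : 0 ≤ b) (hm : a + b = m) (hs : a * b ≤ s0)
    (h0 : 3 * s0 ≤ m ^ 2) : (a * b * √(a ^ 2 + b ^ 2)) ^ 2 ≤ s0 ^ 2 * (m ^ 2 - 2 * s0) := by
  rw [mul_pow, Real.sq_sqrt (by positivity)]
  have e : a ^ 2 + b ^ 2 = m ^ 2 - 2 * (a * b) := by rw [← hm]; ring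
  rw [e]
  set t := a * b with ht
  have ht0 : 0 ≤ t := by positivity
  have key : s0 ^ 2 * (m ^ 2 - 2 * s0) - t ^ 2 * (m ^ 2 - 2 * t) =
      (s0 - t) * ((s0 + t) * m ^ 2 - 2 * (s0 ^ 2 + s0 * t + t ^ 2)) := by ring
  have h1 : 0 ≤ s0 - t := by linarith
  have h2 : 0 ≤ (s0 + t) * m ^ 2 - 2 * (s0 ^ 2 + s0 * t + t ^ 2) := by
    have : (s0 + t) * (3 * s0) ≤ (s0 + t) * m ^ 2 := mul_le_mul_of_nonneg_left h0 (by linarith)
    nlinarith
  nlinarith [mul_nonneg h1 h2]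

theorem choose_real (n : ℕ) (hn : 2 ≤ n) : (n.choose 3 : ℝ) = n * (n - 1) * (n - 2) / 6 := by
  rw [Nat.cast_choose_eq_descPochhammer_div]
  have : (descPochhammer ℝ 3).eval (n : ℝ) = n * (n - 1) * (n - 2) := by
    simp [descPochhammer_succ_right, descPochhammer_zero, Polynomial.eval_mul]
  rw [this]
  norm_num [Nat.factorial]

theorem final (T : Finset (Finset (Fin n)))
    (hT : ∀ S : Finset (Fin n), S.card = 4 → ∃ e ∈ T, e ⊆ S) (h3 : ∀ e ∈ T, e.card = 3)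
    (A : Finset (Fin n)) (hA : ∀ e : Finset (Fin n), e ⊆ A → e.card = 3 → e ∈ T)
    (hn : 1000 ≤ n)
    (h : (∀ e : Finset (Fin n), e ⊆ Aᶜ → e.card = 3 → e ∈ T) ∨ 31 * n ≤ 50 * A.card) :
    4 / 9 * (n.choose 3 : ℝ) ≤ T.card := by
  set a : ℝ := (A.card : ℝ) with ha
  set b : ℝ := (Aᶜ.card : ℝ) with hb
  set m : ℝ := (n : ℝ) with hm
  have ha0 : 0 ≤ a := Nat.cast_nonneg _
  have hb0 : 0 ≤ b := Nat.cast_nonneg _
  have hm0 : (1000 : ℝ) ≤ m := by rw [hm]; exact_mod_cast hn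
  have hab : a + b = m := by
    rw [ha, hb, hm]
    have := card_add_card_compl A
    rw [Fintype.card_fin] at this
    exact_mod_cast this
  have hch := choose_real n (by omega)
  rw [← hm] at hch
  have hcub : 0.0923 * m ^ 3 ≤ 5 / 9 * (m * (m - 1) * (m - 2) / 6) := by nlinarith [sq_nonneg m]
  rcases h with h | h
  · have h1 := main2 T hT h3 A hA h
    rw [← ha, ← hb, hch] at h1
    rw [hch]
    have h2 : (a * b * √(a ^ 2 + b ^ 2)) ^ 2 ≤ (m ^ 2 / 4) ^ 2 * (m ^ 2 - 2 * (m ^ 2 / 4)) := by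
      apply mono m a b _ ha0 hb0 hab
      · nlinarith [sq_nonneg (a - b)]
      · nlinarith [sq_nonneg m]
    have h4 : a * b * √(a ^ 2 + b ^ 2) ≤ 0.17678 * m ^ 3 := by
      apply abs_le_of_sq_le_sq' _ (by positivity) |>.2
      nlinarith [pow_pos (show 0 < m by linarith) 6]
    nlinarith
  · have hbm : b ≤ 0.38 * m := by
      have : (31 : ℝ) * m ≤ 50 * a := by rw [ha, hm]; exact_mod_cast h
      linarith
    have h1 := main1 T hT h3 A hA
    rw [← ha, ← hb, hch] at h1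
    rw [hch]
    have h2 : (a * b * √(a ^ 2 + b ^ 2)) ^ 2 ≤
        (0.2356 * m ^ 2) ^ 2 * (m ^ 2 - 2 * (0.2356 * m ^ 2)) := by
      apply mono m a b _ ha0 hb0 hab
      · have : 0 ≤ (0.38 * m - b) * (0.62 * m - b) := mul_nonneg (by linarith) (by nlinarith)
        nlinarith
      · nlinarith [sq_nonneg m]
    have h4 : a * b * √(a ^ 2 + b ^ 2) ≤ 0.17133 * m ^ 3 := by
      apply abs_le_of_sq_le_sq' _ (by positivity) |>.2
      nlinarith [pow_pos (show 0 < m by linarith) 6]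
    have h5 : b ^ 3 / (6 * √2) ≤ 0.0064672 * m ^ 3 := by
      have hs : (1.4142 : ℝ) ≤ √2 := Real.le_sqrt_of_sq_le (by norm_num)
      have hb3 : b ^ 3 ≤ (0.38 * m) ^ 3 := pow_le_pow_left₀ hb0 hbm 3
      rw [div_le_iff₀ (by positivity)]
      have : 0.0064672 * m ^ 3 * (6 * 1.4142) ≤ 0.0064672 * m ^ 3 * (6 * √2) := by
        apply mul_le_mul_of_nonneg_left _ (by positivity)
        linarith
      nlinarith [pow_pos (show 0 < m by linarith) 3]
    nlinarith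

end Pool.Agent.W650.TurTwo
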